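import Pool.Agent.H382Z.EDT.Count

/-!
# The counting inequality
-/

set_option linter.unusedSectionVars false

namespace Pool.Agent.H382Z.EDT

open Finset

variable {G : Type} [Group G] [DecidableEq G] {S : Finset G} {x y : G} {k : ℕ}

/-- Every long test word without repeated factors has a sweep with equations. -/
def Sys (S : Finset G) (C : ℕ) (𝒰 : Finset (List (Fin k))) : Prop :=
  ∀ (W : ℕ → G) (N ℓ Λ : ℕ), (∀ t, W t ∈ S) →
      pre W N = 1 → (∀ i i', i + ℓ ≤ N → i' + ℓ ≤ N → (∀ u < ℓ, W (i + u) = W (i' + u)) → i = i') →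
      2 ≤ ℓ → ℓ ≤ N → k * C * ℓ < Λ →
      ∃ T, ∃ I : ℕ → Fin k → ℕ × ℕ, Sweep N Λ T I ∧ ∀ t, Eqn S 𝒰 ℓ (pre W) (I t)

/-- Extension of an assignment. -/
def extd {D N : ℕ} (g : Fin D × Fin N → G) (j c : ℕ) : G :=
  if h : j < D ∧ c < N then g (⟨j, h.1⟩, ⟨c, h.2⟩) else 1

lemma Good.sel {N Λ Z L s : ℕ} {I : ℕ → Fin k → ℕ × ℕ} {a b : ℕ} {τ v : ℕ → ℕ}
    (h : ∀ i < s, a ≤ τ i ∧ τ i ≤ b ∧ (∀ c, c % L ≠ 0 → ¬ Dirty Λ (I (τ i)) (c * Z)) ∧
      1 ≤ v i % L ∧ v i % L < L - 1 ∧ v i * Z < N ∧ Sep Λ Z L (I (τ i)) (v i) ∧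
      ∀ i' < i, ∀ p ∈ ends (I (τ i')), Out Λ Z L (v i) p) :
    Sel N Λ Z L (fun i : Fin s => I (τ i)) (fun i => v i) := by
  intro i
  obtain ⟨_, _, _, a4, _, a6, a7, a8⟩ := h i i.2
  exact ⟨a4, a6, a7, fun i' hi' => a8 i' hi'⟩

theorem core (h : Alph S x y) {C : ℕ} {𝒰 : Finset (List (Fin k))} (hsys : Sys S C 𝒰)
    {L m Tw s b Rm D Λ0 P Λ N ℓ : ℕ} (R : ℕ → ℕ) (hR : ∀ j < D, R j ≤ Rm) (hRm : 0 < Rm)
    (eD : D = 2 * k + 1) (e0 : Λ0 = 2 * (D * L * Rm)) (eP : P = 8 + 6 * b) (eΛ : Λ = Λ0 * P)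
    (eN : N = (L * L * m) ^ D * Λ) (eℓ : ℓ = 2 * P + 6) (hL : 16 * k + 1 < L)
    (hL2 : 8 * k * (10 * k) < L) (hT : s * (2 * k * (L + 1) + 2) < Tw)
    (hm : 8 * k * ((8 * k * Λ + 1) * Tw) < L * m) (hb : 1 ≤ b)
    (hb2 : (L * L * m) ^ D * Λ0 ≤ 2 ^ b) (hC : k * C * ℓ < Λ) :
    ∃ j < D, (sph S (R j)).card ^ s ≤
        D * (𝒰.card * ((N + 1) ^ 2 * (ball S ℓ).card ^ 2) ^ k) ^ s ∧
      ∀ r, (∀ j' < j, R j' ≤ r) → r ≤ Rm → (sph S (R j)).card ^ s ≤ D * ((N + 1) ^ (4 * k) *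
        (𝒰.card * ((2 * k + 1 + 3 * (8 * k * Tw)) ^ 2 *
          (ball S (ℓ + (8 * (j * L * r) + 2))).card ^ 2) ^ k) ^ s) := by
  classical
  have hL0 : 0 < L := by omega
  have hm0 : 0 < m := Nat.pos_of_mul_pos_left (show 0 < L * m by omega)
  have hD0 : 0 < D := by omega
  have hΛ0 : 4 ≤ Λ0 := by
    have : 1 * 2 * 1 ≤ D * L * Rm := Nat.mul_le_mul (Nat.mul_le_mul hD0 (by omega)) hRm
    omega
  have hΛP : 4 * P ≤ Λ := by rw [eΛ]; exact Nat.mul_le_mul_right P hΛ0
  have hΛ : 0 < Λ := by omega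
  set B := L * L * m with hB
  have hB0 : 0 < B := by positivity
  have hNΛ : Λ ≤ N := by rw [eN]; exact Nat.le_mul_of_pos_left _ (pow_pos hB0 _)
  obtain ⟨T, T1, T2, T3⟩ := h.exists_word (Λ0 := Λ0) (by omega) hb
  rw [← eP, ← eΛ] at T1 T3
  rw [← eℓ] at T3
  let F : Fin D × Fin N → Finset G := fun v => sph S (R v.1)
  let Ω := Fintype.piFinset F
  have hext : ∀ g ∈ Ω, ∀ j c, extd g j c ∈ sph S (R j) := by
    intro g hg j c
    unfold extd
    split_ifs
    · exact Fintype.mem_piFinset.1 hg _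
    · exact h.one_mem_sph _
  let π : (Fin D × Fin N → G) → ℕ → G := fun g => val T Λ (Low (extd g) L B D)
  let Pj : ℕ → (Fin D × Fin N → G) → Prop := fun j g => ∃ T', ∃ I : ℕ → Fin k → ℕ × ℕ,
    Sweep N Λ T' I ∧ (∀ t, Eqn S 𝒰 ℓ (π g) (I t)) ∧
      Good N Λ I (B ^ j * Λ * L) (B ^ (j + 1) * Λ) L Tw s
  have hPj : ∀ g ∈ Ω, ∃ j < D, Pj j g := by
    intro g hg
    have mem := Low_mem (B := B) h hL0 (fun j hj c => h.sph_mono (hR j hj) (hext g hg j c))
    obtain ⟨W, w1, w2, w3⟩ := T3 (Low (extd g) L B D) (Low_zero _ _ _ _) (fun ρ => by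
      rw [e0, two_mul]; exact mul_mem_sph (h.inv_mem_sph (mem _)) (mem _))
    have hNb : N ≤ 2 ^ b * P := by
      rw [eN, eΛ, ← mul_assoc]; exact Nat.mul_le_mul_right P hb2
    obtain ⟨T', I, i1, i2⟩ := hsys W N ℓ Λ w1 (by
      rw [w2, val, T1 _ _ (by rw [eN]; exact Nat.mul_mod_left _ _), mul_one,
        show N / Λ = B ^ D by rw [eN, Nat.mul_div_cancel _ hΛ], Low_last _ hL0 hm0])
      (fun i i' a1 a2 a3 => w3 i i' (by omega) (by omega) a3) (by omega) (by omega) hC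
    have i3 := i1
    rw [eN, eD] at i3
    obtain ⟨j, j1, j2⟩ := i3.good hΛ hL hL2 hT hm
    rw [← eD, ← eN] at j2
    refine ⟨j, by omega, T', I, i1, ?_, j2⟩
    have : pre W = π g := funext w2
    rwa [this] at i2
  have hΩ0 : 0 < Ω.card := card_pos.2 ⟨fun _ => 1, Fintype.mem_piFinset.2 fun v => h.one_mem_sph _⟩
  obtain ⟨j, hj, hpop⟩ : ∃ j < D, Ω.card ≤ D * (Ω.filter (Pj j)).card := by
    by_contra c
    push Not at c
    have a1 : Ω ⊆ (range D).biUnion fun j => Ω.filter (Pj j) := by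
      intro g hg
      obtain ⟨j, j1, j2⟩ := hPj g hg
      exact mem_biUnion.2 ⟨j, mem_range.2 j1, mem_filter.2 ⟨hg, j2⟩⟩
    have a2 := (card_le_card a1).trans card_biUnion_le
    have a3 : ∑ j ∈ range D, D * (Ω.filter (Pj j)).card < ∑ j ∈ range D, Ω.card :=
      sum_lt_sum_of_nonempty ⟨0, mem_range.2 hD0⟩ fun j hj => c j (mem_range.1 hj)
    rw [← mul_sum, sum_const, card_range, smul_eq_mul] at a3
    have := Nat.mul_le_mul_left D a2
    omega
  have hZ : Λ ≤ B ^ j * Λ * L :=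
    (Nat.le_mul_of_pos_left _ (pow_pos hB0 j)).trans (Nat.le_mul_of_pos_right _ hL0)
  have count : ∀ 𝒟 : Finset (Fin s → Desc G k), (∀ g ∈ Ω, Pj j g → ∃ δ ∈ 𝒟,
      (∃ v, Sel N Λ (B ^ j * Λ * L) L (fun i => (δ i).cfg) v) ∧ ∀ i, Holds (π g) (δ i)) →
      (sph S (R j)).card ^ s ≤ D * 𝒟.card := by
    intro 𝒟 h𝒟
    let Ωd : (Fin s → Desc G k) → Finset (Fin D × Fin N → G) := fun δ => Ω.filter fun g =>
      (∃ v, Sel N Λ (B ^ j * Λ * L) L (fun i => (δ i).cfg) v) ∧ ∀ i, Holds (π g) (δ i)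
    have a1 : Ω.filter (Pj j) ⊆ 𝒟.biUnion Ωd := by
      intro g hg
      obtain ⟨g1, g2⟩ := mem_filter.1 hg
      obtain ⟨δ, d1, d2⟩ := h𝒟 g g1 g2
      exact mem_biUnion.2 ⟨δ, d1, mem_filter.2 ⟨g1, d2⟩⟩
    have a2 : ∀ δ, (Ωd δ).card * (sph S (R j)).card ^ s ≤ Ω.card := by
      intro δ
      by_cases c : ∃ v, Sel N Λ (B ^ j * Λ * L) L (fun i => (δ i).cfg) v
      · obtain ⟨v, hv⟩ := c
        have vN : ∀ i, v i < N := fun i =>
          (Nat.le_mul_of_pos_right _ (by omega)).trans_lt (hv i).2.1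
        refine fiber_count F _ (fun i => (⟨j, hj⟩, ⟨v i, vN i⟩)) (fun i i' e => hv.inj hΛ ?_)
          (fun i => rfl) _ (filter_subset _ _) fun g hg g' hg' e => ?_
        · simpa using e
        · have key := determ T1 hΛ hL0 hm0 hj hv (g := extd g) (g' := extd g') (by
            intro j' c hc
            unfold extd
            split_ifs with c2
            · refine e _ ?_
              rintro ⟨i, hi⟩
              simp only [Prod.mk.injEq, Fin.mk.injEq] at hi
              exact hc ⟨hi.1.symm, i, hi.2⟩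
            · rfl) (mem_filter.1 hg).2.2 (mem_filter.1 hg').2.2
          funext w
          by_cases c3 : ∃ i, ((⟨j, hj⟩, ⟨v i, vN i⟩) : Fin D × Fin N) = w
          · obtain ⟨i, rfl⟩ := c3
            have := key i
            unfold extd at this
            rwa [dif_pos ⟨hj, vN i⟩, dif_pos ⟨hj, vN i⟩] at this
          · exact e w c3
      · have : Ωd δ = ∅ := filter_eq_empty_iff.2 fun g _ e => c e.1
        simp [this]
    have a3 : (Ω.filter (Pj j)).card * (sph S (R j)).card ^ s ≤ 𝒟.card * Ω.card := by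
      refine (Nat.mul_le_mul_right _ ((card_le_card a1).trans card_biUnion_le)).trans ?_
      rw [sum_mul, ← smul_eq_mul]
      exact sum_le_card_nsmul _ _ _ fun δ _ => a2 δ
    have a4 : 0 < (Ω.filter (Pj j)).card := by
      by_contra c
      rw [Nat.eq_zero_of_not_pos c] at hpop; omega
    refine Nat.le_of_mul_le_mul_left (a3.trans ?_) a4
    calc 𝒟.card * Ω.card ≤ 𝒟.card * (D * (Ω.filter (Pj j)).card) := Nat.mul_le_mul_left _ hpop
      _ = _ := by ring
  refine ⟨j, hj, ?_, fun r r1 r2 => ?_⟩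
  · have := count (descs S 𝒰 (range (N + 1)) (ℓ + 0) s) (by
      rintro g hg ⟨T', I, i1, i2, a, b, τ, v, _, _, i3⟩
      obtain ⟨δ, d1, d2, d3⟩ := describe h (Pts := range (N + 1)) (A := 0) hΛ (Good.sel i3)
        (fun i => i2 _) (fun i p hp => ⟨p, by
          obtain ⟨a, e⟩ := (mem_ends _ _).1 hp
          have := i1.le (τ i) a
          have := i1.shape (τ i) a
          rw [mem_range]
          rcases this with e' | e'
          · omega
          · rw [e'] at e; simp at e; omega, 1, one_mem_ball S 0, by simp, fun c => ⟨id, id⟩⟩)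
      exact ⟨δ, d1, ⟨_, d2⟩, d3⟩)
    rwa [card_descs, card_range, add_zero] at this
  · let cf : Finset (Fin k → ℕ × ℕ) := Fintype.piFinset fun _ => range (N + 1) ×ˢ range (N + 1)
    let Z := B ^ j * Λ * L
    let pairs := (cf ×ˢ cf).filter fun q => (tch N Z q).card ≤ 8 * k * Tw
    refine (count (pairs.biUnion fun q =>
      descs S 𝒰 (cand N Λ Z q) (ℓ + (8 * (j * L * r) + 2)) s) ?_).trans
      (Nat.mul_le_mul_left D ?_)
    · rintro g hg ⟨T', I, i1, i2, a, b, τ, v, i4, i5, i3⟩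
      have hcf : ∀ t, I t ∈ cf := by
        intro t
        simp only [cf, Fintype.mem_piFinset, mem_product, mem_range]
        intro a
        have := i1.le t a
        rcases i1.shape t a with e' | e'
        · omega
        · rw [e']; simp
      obtain ⟨δ, d1, d2, d3⟩ := describe h (Pts := cand N Λ Z (I a, I b))
        (A := 8 * (j * L * r) + 2) hΛ (Good.sel i3) (fun i => i2 _) (fun i p hp => by
          obtain ⟨b1, b2, b3, _⟩ := i3 i i.2
          have same : p ∈ cand N Λ Z (I a, I b) → ∃ p' ∈ cand N Λ Z (I a, I b),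
              ∃ l ∈ ball S (8 * (j * L * r) + 2), π g p = π g p' * l ∧ ∀ c,
              (Inn Λ Z L c p → Inn Λ Z L c p') ∧ (Out Λ Z L c p → Out Λ Z L c p') :=
            fun e => ⟨p, e, 1, one_mem_ball _ _, by simp, fun c => ⟨id, id⟩⟩
          rcases i1.ends_cases b1 b2 hp with e | e | ⟨z, z1, z2, z3⟩
          · exact same (by rw [e]; exact mem_insert_self _ _)
          · exact same (mem_insert_of_mem (mem_union_left _ e))
          · have z4 : z / Z ∈ tch N Z (I a, I b) := i1.mem_touched.2 ⟨z, rfl, z2, z3⟩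
            have z5 := (div_eq_iff' (show 0 < Z by omega)).1 (rfl : z / Z = z / Z)
            have z6 : ∀ p, p = z / Z * Z ∨ p = z / Z * Z + Λ ∨ p = z / Z * Z + Z →
                p ∈ cand N Λ Z (I a, I b) := fun p e =>
              mem_insert_of_mem (mem_union_right _ (mem_biUnion.2 ⟨_, z4, by simpa using e⟩))
            by_cases c1 : p = z / Z * Z ∨ p = z / Z * Z + Z
            · exact same (z6 p (by tauto))
            · have c2 : z / Z * Z < p := by omega
              have c3 : p < z / Z * Z + Z := by omega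
              obtain ⟨l, l1, l2⟩ := snap_val h T1 T2 hΛ hL0 hm0 (g := extd g) (r := r) hj
                (fun j' hj' c => h.sph_mono (r1 j' hj') (hext g hg j' c))
                (by rw [e0]; exact Nat.mul_le_mul_left 2 (Nat.mul_le_mul
                  (Nat.mul_le_mul_right L hj.le) r2)) c2 c3 (fun e => by
                  by_contra c4
                  exact b3 _ e ⟨p, hp, c2, not_le.1 c4⟩) z1 (i5 z z2 z3)
              exact ⟨_, z6 _ (Or.inr (Or.inl rfl)), l, l1, l2, fun c => snap_io hZ c2 c3⟩)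
      exact ⟨δ, mem_biUnion.2 ⟨(I a, I b), mem_filter.2 ⟨mem_product.2 ⟨hcf a, hcf b⟩, i4⟩, d1⟩,
        ⟨_, d2⟩, d3⟩
    · have a1 : pairs.card ≤ (N + 1) ^ (4 * k) := by
        refine (card_filter_le _ _).trans ?_
        simp only [cf, card_product, Fintype.card_piFinset, card_range, prod_const, card_univ,
          Fintype.card_fin]
        rw [← sq, ← sq, ← pow_mul, ← pow_mul]
        exact le_of_eq (by congr 1; ring)
      refine (card_biUnion_le_card_mul _ _ _ fun q hq => ?_).trans (Nat.mul_le_mul_right _ a1)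
      rw [card_descs]
      have a2 := card_cand N Λ Z q
      have a3 := (mem_filter.1 hq).2
      gcongr
      omega

end Pool.Agent.H382Z.EDT
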