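import Pool.Agent.H382Z.EDT.Determ

/-!
# Snapping end points and counting descriptions
-/

set_option linter.unusedSectionVars false

namespace Pool.Agent.H382Z.EDT

open Finset

variable {G : Type} [Group G] [DecidableEq G] {S : Finset G} {x y : G} {k : ℕ}

lemma Sweep.ends_cases {N Λ T : ℕ} {I : ℕ → Fin k → ℕ × ℕ} (h : Sweep N Λ T I) {a b τ p : ℕ}
    (h1 : a ≤ τ) (h2 : τ ≤ b) (hp : p ∈ ends (I τ)) :
    p = 0 ∨ p ∈ ends (I b) ∨ ∃ z, (z = p ∨ z + 1 = p) ∧ In (I a) z ∧ ¬ In (I b) z := by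
  obtain ⟨i, hi⟩ := (mem_ends _ _).1 hp
  rcases h.shape τ i with e | e
  · have key : ∀ z, (I τ i).1 ≤ z → z < (I τ i).2 → In (I b) z → ∃ i', (I b i').1 ≤ z ∧
        z < (I b i').2 ∧ (I τ i).1 ≤ (I b i').1 ∧ (I b i').2 ≤ (I τ i).2 := by
      rintro z z1 z2 ⟨i', c1, c2⟩
      obtain ⟨i'', d1, d2⟩ := h.ref_le h2 i' (by omega)
      have := h.disj τ i i'' z z1 z2 (by omega) (by omega)
      subst this
      exact ⟨i', c1, c2, d1, d2⟩
    right
    rcases hi with hi | hi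
    · by_cases c : In (I b) p
      · obtain ⟨i', c1, c2, c3, c4⟩ := key p (by omega) (by omega) c
        exact Or.inl ((mem_ends _ _).2 ⟨i', Or.inl (by omega)⟩)
      · exact Or.inr ⟨p, Or.inl rfl, h.mono h1 ⟨i, by omega, by omega⟩, c⟩
    · by_cases c : In (I b) (p - 1)
      · obtain ⟨i', c1, c2, c3, c4⟩ := key (p - 1) (by omega) (by omega) c
        exact Or.inl ((mem_ends _ _).2 ⟨i', Or.inr (by omega)⟩)
      · exact Or.inr ⟨p - 1, Or.inr (by omega), h.mono h1 ⟨i, by omega, by omega⟩, c⟩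
  · left; rw [e] at hi; simp at hi; omega

lemma snap_io {Λ Z L c c' p : ℕ} (hΛ : Λ ≤ Z) (h1 : c * Z < p) (h2 : p < c * Z + Z) :
    (Inn Λ Z L c' p → Inn Λ Z L c' (c * Z + Λ)) ∧ (Out Λ Z L c' p → Out Λ Z L c' (c * Z + Λ)) := by
  have k1 : ∀ d, d * Z ≤ p → d * Z ≤ c * Z := fun d hd => Nat.mul_le_mul_right Z (by
    by_contra e
    have := Nat.mul_le_mul_right Z (show c + 1 ≤ d by omega)
    rw [add_mul, one_mul] at this; omega)
  have k2 : ∀ d, p ≤ d * Z → c * Z + Z ≤ d * Z := fun d hd => by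
    have : c + 1 ≤ d := by
      by_contra e
      have := Nat.mul_le_mul_right Z (show d ≤ c by omega)
      omega
    have := Nat.mul_le_mul_right Z this
    rwa [add_mul, one_mul] at this
  unfold Inn Out
  constructor
  · rintro ⟨a, b⟩
    have := k1 c' (by omega)
    have := k2 _ b
    omega
  · rintro (a | a)
    · have := k2 _ a; omega
    · have := k1 (cH L c') (by omega); omega

variable {T : G → ℕ → G} {Λ L m D : ℕ}

lemma snap_val (h : Alph S x y) (hT : ∀ a t, t % Λ = 0 → T a t = 1) {Λ0 : ℕ}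
    (hT2 : ∀ a n t, a ∈ sph S n → n ≤ Λ0 → T a t ∈ ball S (2 * n + 2))
    (hΛ : 0 < Λ) (hL : 0 < L) (hm : 0 < m) {g : ℕ → ℕ → G} {j r c p z : ℕ} (hj : j < D)
    (hg : ∀ j' < j, ∀ c, g j' c ∈ sph S r) (hr : 2 * (j * L * r) ≤ Λ0)
    (h1 : c * ((L * L * m) ^ j * Λ * L) < p)
    (h2 : p < c * ((L * L * m) ^ j * Λ * L) + (L * L * m) ^ j * Λ * L)
    (h3 : c % L ≠ 0 → c * ((L * L * m) ^ j * Λ * L) + Λ ≤ p) (h4 : z = p ∨ z + 1 = p)
    (h5 : ¬ z % ((L * L * m) ^ (j + 1) * Λ) < Λ) :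
    ∃ l ∈ ball S (8 * (j * L * r) + 2), val T Λ (Low g L (L * L * m) D) p =
      val T Λ (Low g L (L * L * m) D) (c * ((L * L * m) ^ j * Λ * L) + Λ) * l := by
  set B := L * L * m with hB
  have hB0 : 0 < B := by positivity
  set γ := B ^ j * L with hγ
  have hγ0 : 0 < γ := by positivity
  have eZ : B ^ j * Λ * L = γ * Λ := mul_right_comm _ _ _
  rw [eZ, ← mul_assoc c γ Λ] at h1 h2 h3 ⊢
  have a1 : c * γ ≤ p / Λ := (Nat.le_div_iff_mul_le hΛ).2 h1.le
  have a2 : p / Λ < c * γ + γ := (Nat.div_lt_iff_lt_mul hΛ).2 (by rw [add_mul]; exact h2)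
  have a3 : p / Λ / γ = c := (div_eq_iff' hγ0).2 ⟨a1, a2⟩
  have a4 : c * γ / γ = c := Nat.mul_div_cancel _ hγ0
  have up : ∀ ρ ρ', ρ / γ = ρ' / γ → ∀ j', j ≤ j' → ρ / (B ^ j' * L) = ρ' / (B ^ j' * L) := by
    intro ρ ρ' e j' hj'
    obtain ⟨n, rfl⟩ := Nat.exists_eq_add_of_le hj'
    rw [show B ^ (j + n) * L = γ * B ^ n by rw [hγ]; ring, ← Nat.div_div_eq_div_mul ρ γ,
      ← Nat.div_div_eq_div_mul ρ' γ, e]
  have main : ∀ j', j ≤ j' → j' < D →
      Gp g L j' ((p / Λ - 1) / (B ^ j' * L)) = Gp g L j' (c * γ / (B ^ j' * L)) := by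
    intro j' hj' _
    by_cases c1 : c * γ * Λ + Λ ≤ p
    · have b1 : c * γ + 1 ≤ p / Λ := (Nat.le_div_iff_mul_le hΛ).2 (by rw [add_mul, one_mul]; exact c1)
      rw [up (p / Λ - 1) (c * γ) (by rw [a4]; exact (div_eq_iff' hγ0).2 ⟨by omega, by omega⟩) j' hj']
    · have b0 : c % L = 0 := by by_contra e; exact c1 (h3 e)
      have b1 : p / Λ = c * γ := (div_eq_iff' hΛ).2 ⟨by omega, by omega⟩
      have b2 : ¬ B ^ (j + 1) ∣ c * γ := by
        rintro ⟨q, hq⟩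
        apply h5
        obtain ⟨o, ho⟩ : ∃ o, z = c * γ * Λ + o := ⟨z - c * γ * Λ, by omega⟩
        have b3 : Λ ≤ B ^ (j + 1) * Λ := Nat.le_mul_of_pos_left _ (pow_pos hB0 _)
        rw [ho, hq, mul_right_comm, Nat.mul_add_mod, Nat.mod_eq_of_lt (by omega)]
        omega
      have b3 : 0 < c := by
        rcases c with _ | c
        · simp at b2
        · omega
      rw [b1]
      rcases hj'.eq_or_lt with rfl | c2
      · rw [← hγ, a4, pred_div hγ0 b3, Gp_zero g b0, Gp, if_pos (pred_mod hL b3 b0)]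
      · have b4 : 0 < c * γ := Nat.mul_pos b3 hγ0
        have b5 : ¬ B ^ j' * L ∣ c * γ - 1 + 1 := by
          rw [Nat.sub_add_cancel b4]
          exact fun e => b2 ((pow_dvd_pow B c2).trans ((Dvd.intro _ rfl).trans e))
        rw [← Nat.succ_div_of_not_dvd b5, Nat.sub_add_cancel b4]
  have l1 := Low_cancel (g := g) (L := L) (B := B) hj.le
    (fun j' a b => (main j' a b).symm)
  have l2 := Low_cancel (g := g) (L := L) (B := B) (ρ' := p / Λ) hj.le
    (fun j' a b => (main j' a b).trans (by rw [up (c * γ) (p / Λ) (by rw [a3, a4]) j' a]))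
  have mem : ∀ ρ ρ', (Low g L B j ρ)⁻¹ * Low g L B j ρ' ∈ sph S (2 * (j * L * r)) := by
    intro ρ ρ'
    rw [two_mul]
    exact mul_mem_sph (h.inv_mem_sph (Low_mem h hL hg _)) (Low_mem h hL hg _)
  refine ⟨((Low g L B D (c * γ))⁻¹ * Low g L B D (p / Λ - 1)) *
    T ((Low g L B D (p / Λ - 1))⁻¹ * Low g L B D (p / Λ)) p, ?_, ?_⟩
  · rw [l1, l2, show 8 * (j * L * r) + 2 = 2 * (2 * (j * L * r)) + (2 * (2 * (j * L * r)) + 2) by
      ring]
    exact mul_mem_ball (sph_sub_ball (mem _ _)) (hT2 _ _ _ (mem _ _) hr)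
  · have e1 : (c * γ * Λ + Λ) / Λ - 1 = c * γ := by
      rw [Nat.add_div_right _ hΛ, Nat.mul_div_cancel _ hΛ]; rfl
    have e2 : (c * γ * Λ + Λ) % Λ = 0 := by simp
    unfold val
    rw [hT _ _ e2, e1]
    group

open Classical in
/-- Zones that lose a position between two configurations. -/
noncomputable def tch (N Z : ℕ) (q : (Fin k → ℕ × ℕ) × (Fin k → ℕ × ℕ)) : Finset ℕ :=
  (range N).filter (fun c => ∃ z, z / Z = c ∧ In q.1 z ∧ ¬ In q.2 z)

/-- Candidate positions for snapped end points. -/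
noncomputable def cand (N Λ Z : ℕ) (q : (Fin k → ℕ × ℕ) × (Fin k → ℕ × ℕ)) : Finset ℕ :=
  insert 0 (ends q.2 ∪ (tch N Z q).biUnion fun c => {c * Z, c * Z + Λ, c * Z + Z})

lemma card_cand (N Λ Z : ℕ) (q : (Fin k → ℕ × ℕ) × (Fin k → ℕ × ℕ)) :
    (cand N Λ Z q).card ≤ 2 * k + 1 + 3 * (tch N Z q).card := by
  have a1 := card_insert_le 0 (ends q.2 ∪ (tch N Z q).biUnion fun c =>
    ({c * Z, c * Z + Λ, c * Z + Z} : Finset ℕ))
  have a2 := card_union_le (ends q.2) ((tch N Z q).biUnion fun c =>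
    ({c * Z, c * Z + Λ, c * Z + Z} : Finset ℕ))
  have a3 := card_ends q.2
  have a4 : ((tch N Z q).biUnion fun c => ({c * Z, c * Z + Λ, c * Z + Z} : Finset ℕ)).card ≤
      (tch N Z q).card * 3 := card_biUnion_le_card_mul _ _ _ fun c _ => card_le_three
  unfold cand
  omega

/-- All descriptions with end points in `Pts` and constants of length at most `M`. -/
def descs (S : Finset G) (𝒰 : Finset (List (Fin k))) (Pts : Finset ℕ) (M s : ℕ) :
    Finset (Fin s → Desc G k) :=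
  Fintype.piFinset fun _ => 𝒰 ×ˢ Fintype.piFinset fun _ => (Pts ×ˢ Pts) ×ˢ ball S M ×ˢ ball S M

lemma card_descs (S : Finset G) (𝒰 : Finset (List (Fin k))) (Pts : Finset ℕ) (M s : ℕ) :
    (descs S 𝒰 Pts M s).card = (𝒰.card * (Pts.card ^ 2 * (ball S M).card ^ 2) ^ k) ^ s := by
  simp [descs, Fintype.card_piFinset, sq]

lemma describe (h : Alph S x y) {𝒰 : Finset (List (Fin k))} {Pts : Finset ℕ} {N Z M A s : ℕ}
    (hΛ : 0 < Λ) {π : ℕ → G} {cfg : Fin s → Fin k → ℕ × ℕ} {v : Fin s → ℕ}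
    (hv : Sel N Λ Z L cfg v) (hE : ∀ i, Eqn S 𝒰 M π (cfg i))
    (hs : ∀ i, ∀ p ∈ ends (cfg i), ∃ p' ∈ Pts, ∃ l ∈ ball S A, π p = π p' * l ∧
      ∀ c, (Inn Λ Z L c p → Inn Λ Z L c p') ∧ (Out Λ Z L c p → Out Λ Z L c p')) :
    ∃ δ ∈ descs S 𝒰 Pts (M + A) s, Sel N Λ Z L (fun i => (δ i).cfg) v ∧ ∀ i, Holds π (δ i) := by
  choose! sn s1 lam s2 s3 s4 using hs
  choose u u1 c c1 c2 c3 using hE
  have m1 := fun i => fst_mem_ends (cfg i)
  have m2 := fun i => snd_mem_ends (cfg i)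
  refine ⟨fun i => (u i, fun a => ((sn i (cfg i a).1, sn i (cfg i a).2),
    c i a * (lam i (cfg i a).1)⁻¹, lam i (cfg i a).2)), ?_, fun i => ?_, fun i => ⟨?_, ?_⟩⟩
  · simp only [descs, Fintype.mem_piFinset, mem_product]
    exact fun i => ⟨u1 i, fun a => ⟨⟨s1 i _ (m1 i a), s1 i _ (m2 i a)⟩,
      mul_mem_ball (c1 i a) (h.inv_mem_ball (s2 i _ (m1 i a))),
      ball_mono S (by omega) (s2 i _ (m2 i a))⟩⟩
  · have en : ∀ i p, p ∈ ends (fun a => (sn i (cfg i a).1, sn i (cfg i a).2)) →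
        ∃ q ∈ ends (cfg i), sn i q = p := by
      intro i p hp
      obtain ⟨a, e | e⟩ := (mem_ends _ _).1 hp
      exacts [⟨_, m1 i a, e⟩, ⟨_, m2 i a, e⟩]
    obtain ⟨v1, v2, ⟨v3, a0, v4, v5⟩, v6⟩ := hv i
    have iff : ∀ q ∈ ends (cfg i), Inn Λ Z L (v i) (sn i q) ↔ Inn Λ Z L (v i) q := by
      intro q hq
      refine ⟨fun e => ?_, (s4 i q hq _).1⟩
      rcases v3 q hq with e' | e'
      · exact e'
      · exact (inn_out hΛ e ((s4 i q hq _).2 e')).elim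
    refine ⟨v1, v2, ⟨fun p hp => ?_, a0, ?_, fun a ha => ?_⟩, fun i' hi' p hp => ?_⟩
    · obtain ⟨q, hq, rfl⟩ := en i p hp
      exact (v3 q hq).imp (s4 i q hq _).1 (s4 i q hq _).2
    · simp only [Desc.cfg]
      rw [iff _ (m1 i a0), iff _ (m2 i a0)]; exact v4
    · simp only [Desc.cfg]
      rw [iff _ (m1 i a), iff _ (m2 i a)]; exact v5 a ha
    · obtain ⟨q, hq, rfl⟩ := en i' p hp
      exact (s4 i' q hq _).2 (v6 i' hi' q hq)
  · intro a ha
    exact c2 i a fun e => ha (by simp only [Desc.cfg, e])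
  · rw [← c3 i]
    congr 1
    refine List.map_congr_left fun a _ => ?_
    simp only [Desc.cfg]
    rw [s3 i _ (m1 i a), s3 i _ (m2 i a)]
    group

end Pool.Agent.H382Z.EDT
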