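import Pool.Agent.H382Z.EDT.System

/-!
# Equations determine the selected variables
-/

set_option linter.unusedSectionVars false

namespace Pool.Agent.H382Z.EDT

open Finset

variable {G : Type} [Group G] [DecidableEq G] {S : Finset G} {x y : G} {k : ℕ}

lemma single_slot {u : List (Fin k)} {a : Fin k} (hu : u.count a = 1) {f f' : Fin k → G}
    (h : ∀ b, b ≠ a → f b = f' b) (e : (u.map f).prod = (u.map f').prod) : f a = f' a := by
  obtain ⟨l, r, rfl⟩ := List.append_of_mem (List.count_pos_iff.1 (show 0 < u.count a by omega))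
  rw [List.count_append, List.count_cons_self] at hu
  have h1 : a ∉ l := List.count_eq_zero.1 (by omega)
  have h2 : a ∉ r := List.count_eq_zero.1 (by omega)
  have e1 : l.map f = l.map f' := List.map_congr_left fun b hb => h b (fun c => h1 (c ▸ hb))
  have e2 : r.map f = r.map f' := List.map_congr_left fun b hb => h b (fun c => h2 (c ▸ hb))
  simp only [List.map_append, List.map_cons, List.prod_append, List.prod_cons, e1, e2] at e
  exact mul_right_cancel (mul_left_cancel e)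

lemma out_act {Λ γ L c p : ℕ} (hΛ : 0 < Λ) (hγ : 0 < γ) (hc : 1 ≤ c % L)
    (h : Out Λ (γ * Λ) L c p) : ¬ Act L c ((p / Λ - 1) / γ) ∧
      (p % Λ ≠ 0 → ¬ Act L c (p / Λ / γ)) := by
  have hc0 : 0 < c := by
    rcases c with _ | c
    · simp at hc
    · omega
  have hcγ : 0 < c * γ := Nat.mul_pos hc0 hγ
  unfold Act
  rw [Nat.le_div_iff_mul_le hγ, Nat.div_lt_iff_lt_mul hγ, Nat.le_div_iff_mul_le hγ,
    Nat.div_lt_iff_lt_mul hγ]
  rcases h with h | h
  · rw [← mul_assoc] at h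
    have a1 : p / Λ ≤ c * γ := Nat.div_le_of_le_mul (by rwa [mul_comm Λ])
    refine ⟨by omega, fun e => ?_⟩
    have a2 : p ≠ c * γ * Λ := fun e' => e (by rw [e']; exact Nat.mul_mod_left _ _)
    have a3 : p / Λ < c * γ := (Nat.div_lt_iff_lt_mul hΛ).2 (by omega)
    omega
  · have a1 : cH L c * γ + 1 ≤ p / Λ := (Nat.le_div_iff_mul_le hΛ).2 (by
      rw [add_mul, one_mul, mul_assoc]; exact h)
    omega

lemma inn_act {Λ γ L c p : ℕ} (hΛ : 0 < Λ) (hγ : 0 < γ)
    (h : Inn Λ (γ * Λ) L c p) : Act L c ((p / Λ - 1) / γ) ∧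
      (p % Λ ≠ 0 → Act L c (p / Λ / γ)) := by
  unfold Act
  rw [Nat.le_div_iff_mul_le hγ, Nat.div_lt_iff_lt_mul hγ, Nat.le_div_iff_mul_le hγ,
    Nat.div_lt_iff_lt_mul hγ]
  obtain ⟨h1, h2⟩ := h
  have a1 : c * γ + 1 ≤ p / Λ := (Nat.le_div_iff_mul_le hΛ).2 (by
    rw [add_mul, one_mul, mul_assoc]; exact h1)
  rw [← mul_assoc] at h2
  have a2 : p / Λ ≤ cH L c * γ := Nat.div_le_of_le_mul (by rwa [mul_comm Λ])
  refine ⟨by omega, fun e => ?_⟩
  have a3 : p ≠ cH L c * γ * Λ := fun e' => e (by rw [e']; exact Nat.mul_mod_left _ _)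
  have a4 : p / Λ < cH L c * γ := (Nat.div_lt_iff_lt_mul hΛ).2 (by omega)
  omega

variable {T : G → ℕ → G} {Λ L m D : ℕ}

lemma val_out (hT : ∀ a t, t % Λ = 0 → T a t = 1) (hΛ : 0 < Λ) (hL : 0 < L) (hm : 0 < m)
    {g g' : ℕ → ℕ → G} {p : ℕ} (h : ∀ j c, g j c ≠ g' j c →
      1 ≤ c % L ∧ Out Λ ((L * L * m) ^ j * Λ * L) L c p) :
    val T Λ (Low g L (L * L * m) D) p = val T Λ (Low g' L (L * L * m) D) p := by
  have key : ∀ j c, g j c ≠ g' j c → ¬ Act L c ((p / Λ - 1) / ((L * L * m) ^ j * L)) ∧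
      (p % Λ ≠ 0 → ¬ Act L c (p / Λ / ((L * L * m) ^ j * L))) := by
    intro j c e
    obtain ⟨a, b⟩ := h j c e
    rw [mul_right_comm] at b
    exact out_act hΛ (by positivity) a b
  have e1 : Low g L (L * L * m) D (p / Λ - 1) = Low g' L (L * L * m) D (p / Λ - 1) :=
    Low_congr hL fun j _ c hc => by by_contra e; exact (key j c e).1 hc
  unfold val
  by_cases c : p % Λ = 0
  · rw [hT _ _ c, hT _ _ c, e1]
  · have e2 : Low g L (L * L * m) D (p / Λ) = Low g' L (L * L * m) D (p / Λ) :=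
      Low_congr hL fun j _ c' hc => by by_contra e; exact (key j c' e).2 c hc
    rw [e1, e2]

lemma val_inn (hT : ∀ a t, t % Λ = 0 → T a t = 1) (hΛ : 0 < Λ) (hL : 0 < L) (hm : 0 < m)
    {g g' : ℕ → ℕ → G} {j c : ℕ} (hc : 1 ≤ c % L) (hj : j < D)
    (h : ∀ j' c', ¬ (j' = j ∧ c' = c) → g j' c' = g' j' c') :
    ∃ δ : G, (δ = 1 → g j c = g' j c) ∧ ∀ p, Inn Λ ((L * L * m) ^ j * Λ * L) L c p →
      val T Λ (Low g' L (L * L * m) D) p = δ * val T Λ (Low g L (L * L * m) D) p := by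
  obtain ⟨δ, d1, d2⟩ := Low_delta (m := m) hL hc hj h
  refine ⟨δ, d1, fun p hp => ?_⟩
  rw [mul_right_comm] at hp
  obtain ⟨a, b⟩ := inn_act hΛ (by positivity) hp
  unfold val
  by_cases c : p % Λ = 0
  · rw [hT _ _ c, hT _ _ c, d2 _ a, mul_assoc]
  · rw [d2 _ a, d2 _ (b c), mul_inv_rev, mul_assoc _ δ⁻¹, inv_mul_cancel_left, mul_assoc]

/-- The description of one equation. -/
abbrev Desc (G : Type) (k : ℕ) := List (Fin k) × (Fin k → (ℕ × ℕ) × G × G)

/-- The configuration of a description. -/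
def Desc.cfg (δ : Desc G k) : Fin k → ℕ × ℕ := fun a => (δ.2 a).1

/-- The equation given by a description. -/
def Holds (π : ℕ → G) (δ : Desc G k) : Prop :=
  (∀ a, (δ.cfg a).1 ≠ (δ.cfg a).2 → δ.1.count a = 1) ∧
    (δ.1.map fun a => (δ.2 a).2.1 * ((π (δ.cfg a).1)⁻¹ * π (δ.cfg a).2) * (δ.2 a).2.2).prod = 1

/-- The selected variables form a triangular system. -/
def Sel (N Λ Z L : ℕ) {s : ℕ} (cfg : Fin s → Fin k → ℕ × ℕ) (x : Fin s → ℕ) : Prop :=
  ∀ i, 1 ≤ x i % L ∧ x i * Z < N ∧ Sep Λ Z L (cfg i) (x i) ∧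
    ∀ i' < i, ∀ p ∈ ends (cfg i'), Out Λ Z L (x i) p

lemma inn_out {Z c p : ℕ} (hΛ : 0 < Λ) (h1 : Inn Λ Z L c p) (h2 : Out Λ Z L c p) : False := by
  unfold Inn Out at *; omega

lemma Sel.inj {N Z s : ℕ} {cfg : Fin s → Fin k → ℕ × ℕ} {x : Fin s → ℕ} (hΛ : 0 < Λ)
    (h : Sel N Λ Z L cfg x) : Function.Injective x := by
  have key : ∀ i i', i' < i → x i ≠ x i' := by
    intro i i' hi e
    obtain ⟨_, i0, a, _⟩ := (h i').2.2.1
    have b := (h i).2.2.2 i' hi
    rw [e] at b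
    exact a ⟨fun c => (inn_out hΛ c (b _ (fst_mem_ends _ _))).elim,
      fun c => (inn_out hΛ c (b _ (snd_mem_ends _ _))).elim⟩
  intro i i' e
  by_contra c
  rcases lt_or_gt_of_ne c with c | c
  exacts [key _ _ c e.symm, key _ _ c e]

theorem determ (hT : ∀ a t, t % Λ = 0 → T a t = 1) (hΛ : 0 < Λ) (hL : 0 < L) (hm : 0 < m)
    {N j s : ℕ} (hj : j < D) {δ : Fin s → Desc G k} {x : Fin s → ℕ}
    (hx : Sel N Λ ((L * L * m) ^ j * Λ * L) L (fun i => (δ i).cfg) x) {g g' : ℕ → ℕ → G}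
    (h : ∀ j' c, ¬ (j' = j ∧ ∃ i, x i = c) → g j' c = g' j' c)
    (e : ∀ i, Holds (val T Λ (Low g L (L * L * m) D)) (δ i))
    (e' : ∀ i, Holds (val T Λ (Low g' L (L * L * m) D)) (δ i)) (i : Fin s) :
    g j (x i) = g' j (x i) := by
  classical
  induction i using WellFoundedLT.induction with
  | ind i ih =>
  let g'' : ℕ → ℕ → G := fun j' c => if j' = j ∧ c = x i then g' j' c else g j' c
  obtain ⟨x1, _, ⟨x3, a0, x4, x5⟩, _⟩ := hx i
  have f1 : ∀ p ∈ ends (δ i).cfg, val T Λ (Low g'' L (L * L * m) D) p =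
      val T Λ (Low g' L (L * L * m) D) p := by
    intro p hp
    refine val_out hT hΛ hL hm fun j' c ne => ?_
    have n1 : ¬ (j' = j ∧ c = x i) := fun e => ne (by simp only [g'', if_pos e])
    simp only [g'', if_neg n1] at ne
    obtain ⟨rfl, i', rfl⟩ : j' = j ∧ ∃ i, x i = c := by
      by_contra c2; exact ne (h _ _ c2)
    have : i < i' := by
      rcases lt_trichotomy i i' with c | c | c
      · exact c
      · exact absurd ⟨rfl, by rw [c]⟩ n1
      · exact absurd (ih i' c) ne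
    exact ⟨(hx i').1, (hx i').2.2.2 i this p hp⟩
  have f2 : ∀ j' c', ¬ (j' = j ∧ c' = x i) → g j' c' = g'' j' c' := fun j' c' e => by
    simp only [g'', if_neg e]
  obtain ⟨d, d1, d2⟩ := val_inn (D := D) hT hΛ hL hm x1 hj f2
  have f3 : ∀ p, Out Λ ((L * L * m) ^ j * Λ * L) L (x i) p →
      val T Λ (Low g'' L (L * L * m) D) p = val T Λ (Low g L (L * L * m) D) p := by
    intro p hp
    refine val_out hT hΛ hL hm fun j' c ne => ?_
    obtain ⟨rfl, rfl⟩ : j' = j ∧ c = x i := by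
      by_contra c2; exact ne (f2 _ _ c2).symm
    exact ⟨x1, hp⟩
  have m1 := fst_mem_ends (δ i).cfg
  have m2 := snd_mem_ends (δ i).cfg
  have ne : ((δ i).cfg a0).1 ≠ ((δ i).cfg a0).2 := fun e => x4 (by rw [e])
  have key := single_slot ((e i).1 a0 ne) (fun b hb => ?_) ((e i).2.trans (e' i).2.symm)
  · rw [← f1 _ (m1 _), ← f1 _ (m2 _)] at key
    have key2 := mul_left_cancel (mul_right_cancel key)
    have : d = 1 := by
      rcases x3 _ (m1 a0) with c1 | c1 <;> rcases x3 _ (m2 a0) with c2 | c2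
      · exact absurd ⟨fun _ => c2, fun _ => c1⟩ x4
      · rw [d2 _ c1, f3 _ c2] at key2
        have := inv_injective (mul_right_cancel key2)
        simpa using this
      · rw [f3 _ c1, d2 _ c2] at key2
        simpa using mul_left_cancel key2
      · exact absurd ⟨fun c => (inn_out hΛ c c1).elim, fun c => (inn_out hΛ c c2).elim⟩ x4
    simpa [g''] using d1 this
  · rw [← f1 _ (m1 _), ← f1 _ (m2 _)]
    rcases x3 _ (m1 b) with c1 | c1
    · rw [d2 _ c1, d2 _ ((x5 b hb).1 c1)]; group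
    · rcases x3 _ (m2 b) with c2 | c2
      · exact (inn_out hΛ ((x5 b hb).2 c2) c1).elim
      · rw [f3 _ c1, f3 _ c2]

lemma fiber_count {V : Type} [Fintype V] [DecidableEq V] (F : V → Finset G) (Q : Finset G)
    {s : ℕ} (X : Fin s → V) (hX : Function.Injective X) (hF : ∀ i, F (X i) = Q)
    (Ω : Finset (V → G)) (hΩ : Ω ⊆ Fintype.piFinset F)
    (det : ∀ g ∈ Ω, ∀ g' ∈ Ω, (∀ v, (¬ ∃ i, X i = v) → g v = g' v) → g = g') :
    Ω.card * Q.card ^ s ≤ (Fintype.piFinset F).card := by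
  classical
  have := Finset.card_le_card_of_injOn (s := Ω ×ˢ Fintype.piFinset (fun _ : Fin s => Q))
    (t := Fintype.piFinset F) (fun q => Function.extend X q.2 q.1) (by
      rintro ⟨g, h⟩ hq
      simp only [coe_product, Set.mem_prod, mem_coe, Fintype.mem_piFinset] at hq ⊢
      intro v
      by_cases c : ∃ i, X i = v
      · obtain ⟨i, rfl⟩ := c
        rw [hX.extend_apply, hF]; exact hq.2 i
      · rw [Function.extend_apply' _ _ _ c]; exact Fintype.mem_piFinset.1 (hΩ hq.1) v) (by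
      rintro ⟨g, h⟩ hq ⟨g', h'⟩ hq' e
      simp only [coe_product, Set.mem_prod, mem_coe] at hq hq' e
      refine Prod.ext (det g hq.1 g' hq'.1 fun v hv => ?_) (funext fun i => ?_)
      · have := congrFun e v
        rwa [Function.extend_apply' _ _ _ hv, Function.extend_apply' _ _ _ hv] at this
      · have := congrFun e (X i)
        rwa [hX.extend_apply, hX.extend_apply] at this)
  simpa [Fintype.card_piFinset] using this

end Pool.Agent.H382Z.EDT
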