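import Pool.Agent.H382Z.EDT.Core

/-!
# The choice of the parameters
-/

set_option linter.unusedSectionVars false

namespace Pool.Agent.H382Z.EDT

open Finset

variable {G : Type} [Group G] [DecidableEq G] {S : Finset G} {x y : G} {k : ℕ}

lemma lin_le_pow {c u : ℕ} (hu : 2 * c + 1 ≤ u) : c * (u + 1) ≤ 2 ^ u := by
  obtain ⟨n, rfl⟩ : ∃ n, u = c + (n + 1) := ⟨u - c - 1, by omega⟩
  have a1 : c ≤ 2 ^ c := Nat.lt_two_pow_self.le
  have a2 : n + 1 ≤ 2 ^ n := Nat.lt_two_pow_self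
  rw [pow_add, pow_succ]
  exact Nat.mul_le_mul a1 (by omega)

theorem core2 (h : Alph S x y) {C : ℕ} {𝒰 : Finset (List (Fin k))} (hsys : Sys S C 𝒰)
    {L Tw s D v : ℕ} (R : ℕ → ℕ) (hR : ∀ j < D, R j ≤ 2 ^ v) (hv : 1 ≤ v)
    (eD : D = 2 * k + 1) (hL : 16 * k + 1 < L) (hL2 : 8 * k * (10 * k) < L)
    (hT : s * (2 * k * (L + 1) + 2) < Tw) (c1 : 2 * (D * L) ≤ 2 ^ v)
    (c2 : 8 + 6 * ((5 * D + 2) * v) ≤ 2 ^ v) (c3 : 8 * k * (8 * k + 1) * Tw < 2 ^ v)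
    (c4 : L * L ≤ 2 ^ v) (c5 : 3 * (k * C) < 2 ^ v) (c6 : 𝒰.card ≤ 2 ^ v) :
    ∃ j < D, (sph S (R j)).card ^ s ≤
        2 ^ (v * (1 + (1 + k * (2 * (5 * D + 4) + 2 * ((S.card + 1) * (60 * D + 46)))) * s)) ∧
      ∀ r, (∀ j' < j, R j' ≤ r) → r ≤ 2 ^ v → (sph S (R j)).card ^ s ≤
        2 ^ (v * (1 + (5 * D + 4) * (4 * k))) *
        (𝒰.card * ((2 * k + 1 + 3 * (8 * k * Tw)) ^ 2 *
          (ball S (22 + 12 * ((5 * D + 2) * v) + (8 * (j * L * r) + 2))).card ^ 2) ^ k) ^ s := by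
  set E := 2 ^ v with hE
  have hE1 : 2 ≤ E := by
    rw [hE]; exact (pow_one 2).symm.le.trans (Nat.pow_le_pow_right (by omega) hv)
  set b := (5 * D + 2) * v with hb
  have hb1 : 1 ≤ b := Nat.mul_pos (by omega) hv
  have hDL : D ≤ D * L := Nat.le_mul_of_pos_right _ (by omega)
  have hDE : D ≤ E := by omega
  have d1 : 2 * (D * L * E) ≤ E ^ 2 := by rw [← mul_assoc, sq]; exact Nat.mul_le_mul_right E c1
  have d1' : E ≤ 2 * (D * L * E) := by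
    rw [← mul_assoc]; exact Nat.le_mul_of_pos_left _ (by omega)
  have d2 : 2 * (D * L * E) * (8 + 6 * b) ≤ E ^ 3 := by
    rw [pow_succ]; exact Nat.mul_le_mul d1 c2
  have d2' : 1 ≤ 2 * (D * L * E) * (8 + 6 * b) := Nat.mul_pos (by omega) (by omega)
  have d3 : (L * L * E ^ 4) ^ D ≤ E ^ (5 * D) := by
    rw [pow_mul]
    exact Nat.pow_le_pow_left (by rw [pow_succ' E 4]; exact Nat.mul_le_mul_right _ c4) D
  have d4 : (L * L * E ^ 4) ^ D * (2 * (D * L * E) * (8 + 6 * b)) + 1 ≤ E ^ (5 * D + 4) := by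
    have a1 := Nat.mul_le_mul d3 d2
    rw [← pow_add] at a1
    have a2 : 1 ≤ E ^ (5 * D + 3) := Nat.pow_pos (by omega)
    have a3 : E ^ (5 * D + 3) * 2 ≤ E ^ (5 * D + 4) := by
      rw [pow_succ E (5 * D + 3)]; exact Nat.mul_le_mul_left _ hE1
    omega
  obtain ⟨j, hj, k1, k2⟩ := core h hsys (L := L) (m := E ^ 4) (Tw := Tw) (s := s) (b := b)
    (Rm := E) (D := D) R hR (by omega) eD rfl rfl rfl rfl rfl hL hL2 hT (by
      set Λ := 2 * (D * L * E) * (8 + 6 * b)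
      calc 8 * k * ((8 * k * Λ + 1) * Tw) ≤ 8 * k * ((8 * k * Λ + Λ) * Tw) := by gcongr
        _ = 8 * k * (8 * k + 1) * Tw * Λ := by ring
        _ < E * Λ := Nat.mul_lt_mul_of_pos_right c3 d2'
        _ ≤ E * E ^ 3 := Nat.mul_le_mul_left _ d2
        _ = 1 * E ^ 4 := by ring
        _ ≤ L * E ^ 4 := Nat.mul_le_mul_right _ (by omega)) hb1 (by
      have a1 := Nat.mul_le_mul d3 d1
      rw [← pow_add] at a1
      refine a1.trans (le_of_eq ?_)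
      rw [hE, ← pow_mul, mul_comm v]) (by
      calc k * C * (2 * (8 + 6 * b) + 6) ≤ k * C * (3 * (8 + 6 * b)) := by gcongr; omega
        _ = 3 * (k * C) * (8 + 6 * b) := by ring
        _ < 2 * (D * L * E) * (8 + 6 * b) := Nat.mul_lt_mul_of_pos_right (by omega) (by omega))
  rw [show 2 * (8 + 6 * b) + 6 = 22 + 12 * b by ring] at k1 k2
  refine ⟨j, hj, k1.trans ?_, fun r r1 r2 => (k2 r r1 r2).trans ?_⟩
  · have a1 : (ball S (22 + 12 * b)).card ≤ E ^ ((S.card + 1) * (60 * D + 46)) := by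
      refine (card_ball_le S _).trans ?_
      have : S.card + 1 ≤ 2 ^ (S.card + 1) := Nat.lt_two_pow_self.le
      refine (Nat.pow_le_pow_left this _).trans ?_
      rw [hE, ← pow_mul, ← pow_mul, mul_left_comm v]
      refine Nat.pow_le_pow_right (by omega) (Nat.mul_le_mul_left _ ?_)
      rw [hb]; nlinarith
    calc _ ≤ E * (E * ((E ^ (5 * D + 4)) ^ 2 * (E ^ ((S.card + 1) * (60 * D + 46))) ^ 2) ^ k) ^ s := by
          gcongr
      _ = _ := by rw [pow_mul 2 v, ← hE]; ring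
  · rw [← mul_assoc]
    refine Nat.mul_le_mul_right _ ?_
    calc _ ≤ E * (E ^ (5 * D + 4)) ^ (4 * k) := by gcongr
      _ = _ := by rw [pow_mul 2 v, ← hE]; ring

theorem no_sys (h : Alph S x y) (hG : Subgroup.closure (S : Set G) = ⊤) [Infinite G] {C : ℕ}
    {𝒰 : Finset (List (Fin k))} (hsys : Sys S C 𝒰) : False := by
  obtain ⟨L, hL, hL2⟩ : ∃ L, 16 * k + 1 < L ∧ 8 * k * (10 * k) < L :=
    ⟨16 * k + 2 + 8 * k * (10 * k), by omega, by omega⟩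
  obtain ⟨D, eD⟩ : ∃ D, D = 2 * k + 1 := ⟨_, rfl⟩
  obtain ⟨K, eK⟩ : ∃ K, K = 1 + k * (2 * (5 * D + 4) + 2 * ((S.card + 1) * (60 * D + 46))) :=
    ⟨_, rfl⟩
  obtain ⟨κ, eκ⟩ : ∃ κ, κ = 1 + k * (4 * (K + 2) + 4) + 1 := ⟨_, rfl⟩
  obtain ⟨K2, eK2⟩ : ∃ K2, K2 = 1 + (5 * D + 4) * (4 * k) := ⟨_, rfl⟩
  obtain ⟨s, es⟩ : ∃ s, s = κ ^ D * K2 + 1 := ⟨_, rfl⟩
  obtain ⟨Tw, hT⟩ : ∃ Tw, s * (2 * k * (L + 1) + 2) < Tw := ⟨_, Nat.lt_succ_self _⟩
  obtain ⟨Q, eQ⟩ : ∃ Q, Q = 2 * k + 1 + 3 * (8 * k * Tw) := ⟨_, rfl⟩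
  obtain ⟨c, ec⟩ : ∃ c, c = 8 * (D * L) + 22 + 12 * ((5 * D + 2) * κ ^ D) + 6 * (5 * D + 2) +
    8 * k * (8 * k + 1) * Tw + L * L + 3 * (k * C) + 𝒰.card + Q := ⟨_, rfl⟩
  have hκ : 0 < κ := by omega
  have big : ∀ u, 2 * c + 1 ≤ u → c + c * u ≤ 2 ^ u := fun u hu => by
    have := lin_le_pow hu
    rwa [mul_add, mul_one, add_comm] at this
  have main : ∀ v (R : ℕ → ℕ), 2 * c + 1 ≤ v → (∀ j < D, R j ≤ 2 ^ v) →
      ∃ j < D, (sph S (R j)).card ^ s ≤ 2 ^ (v * (1 + K * s)) ∧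
      ∀ r, (∀ j' < j, R j' ≤ r) → r ≤ 2 ^ v → (sph S (R j)).card ^ s ≤ 2 ^ (v * K2) *
        (𝒰.card * (Q ^ 2 *
          (ball S (22 + 12 * ((5 * D + 2) * v) + (8 * (j * L * r) + 2))).card ^ 2) ^ k) ^ s := by
    intro v R hv hR
    have b1 := big v hv
    have b2 : 6 * (5 * D + 2) * v ≤ c * v := Nat.mul_le_mul_right v (by omega)
    rw [mul_assoc] at b2
    rw [eK, eK2, eQ]
    exact core2 h hsys R hR (by omega) eD hL hL2 hT (by omega) (by omega) (by omega) (by omega)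
      (by omega) (by omega)
  by_cases hc : ∃ v, 2 * c + 1 ≤ v ∧ 2 ^ (v * (K + 2)) ≤ (sph S (2 ^ v)).card
  · obtain ⟨v, hv, h1⟩ := hc
    obtain ⟨j, _, h2, _⟩ := main v (fun _ => 2 ^ v) hv (fun _ _ => le_rfl)
    have h3 := (Nat.pow_le_pow_left h1 s).trans h2
    rw [← pow_mul, Nat.pow_le_pow_iff_right (by omega), mul_assoc] at h3
    have h4 := Nat.le_of_mul_le_mul_left h3 (by omega)
    rw [add_mul] at h4
    omega
  · push Not at hc
    obtain ⟨u, hu⟩ : ∃ u, u = 2 * c + 1 := ⟨_, rfl⟩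
    have mono : ∀ i j, i ≤ j → u * κ ^ i ≤ u * κ ^ j := fun i j e =>
      Nat.mul_le_mul_left u (Nat.pow_le_pow_right hκ e)
    have low : ∀ j, u ≤ u * κ ^ j := fun j => by simpa using mono 0 j (Nat.zero_le j)
    obtain ⟨j, hj, _, h2⟩ := main (u * κ ^ D) (fun j => 2 ^ (u * κ ^ (j + 1)))
      (hu ▸ low D) (fun j hj => Nat.pow_le_pow_right (by omega) (mono _ _ hj))
    have h3 := h2 (2 ^ (u * κ ^ j)) (fun j' hj' => Nat.pow_le_pow_right (by omega) (mono _ _ hj'))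
      (Nat.pow_le_pow_right (by omega) (mono _ _ hj.le))
    have hw := low j
    rw [pow_succ, ← mul_assoc] at h3
    set w := u * κ ^ j
    have b1 := big u hu.ge
    have b2 : 2 ^ u ≤ 2 ^ w := Nat.pow_le_pow_right (by omega) hw
    have b3 : 12 * ((5 * D + 2) * κ ^ D) * u ≤ c * u := Nat.mul_le_mul_right u (by omega)
    have b4 : 22 + 12 * ((5 * D + 2) * (u * κ ^ D)) + (8 * (j * L * 2 ^ w) + 2) ≤ 2 ^ (2 * w) := by
      have a1 : 12 * ((5 * D + 2) * (u * κ ^ D)) = 12 * ((5 * D + 2) * κ ^ D) * u := by ring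
      have a2 : j * L * 2 ^ w ≤ D * L * 2 ^ w := by gcongr
      have a3 : (8 * (D * L) + 3) * 2 ^ w ≤ 2 ^ w * 2 ^ w := Nat.mul_le_mul_right _ (by omega)
      have a4 : 0 < 2 ^ w := by positivity
      rw [add_mul, mul_assoc] at a3
      rw [two_mul, pow_add]
      omega
    have b5 : (ball S (22 + 12 * ((5 * D + 2) * (u * κ ^ D)) + (8 * (j * L * 2 ^ w) + 2))).card ≤
        (2 ^ w) ^ (2 * (K + 2) + 1) := by
      refine (card_le_card (ball_mono S b4)).trans ((h.card_ball _).trans ?_)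
      have a1 := hc (2 * w) (by omega)
      have a2 : 2 ≤ 2 ^ w := (pow_one 2).symm.le.trans (Nat.pow_le_pow_right (by omega) (by omega))
      rw [pow_succ', ← pow_mul, show w * (2 * (K + 2)) = 2 * w * (K + 2) by ring]
      exact Nat.mul_le_mul a2 a1.le
    have b6 : 2 ^ (w * κ) ≤ (sph S (2 ^ (w * κ))).card :=
      (Nat.le_succ _).trans (h.card_sph hG _)
    have b7 : (2 ^ (w * κ)) ^ s ≤ 2 ^ (u * κ ^ D * K2) *
        (2 ^ w * ((2 ^ w) ^ 2 * ((2 ^ w) ^ (2 * (K + 2) + 1)) ^ 2) ^ k) ^ s := by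
      refine ((Nat.pow_le_pow_left b6 s).trans h3).trans ?_
      gcongr <;> omega
    have b8 : 2 ^ (u * κ ^ D * K2) *
        (2 ^ w * ((2 ^ w) ^ 2 * ((2 ^ w) ^ (2 * (K + 2) + 1)) ^ 2) ^ k) ^ s =
        2 ^ (u * (κ ^ D * K2) + w * (1 + k * (4 * (K + 2) + 4)) * s) := by ring
    rw [b8, ← pow_mul, Nat.pow_le_pow_iff_right (by omega)] at b7
    have b9 : w * κ * s = w * (1 + k * (4 * (K + 2) + 4)) * s + w * s := by rw [eκ]; ring
    have b10 : u * s ≤ w * s := Nat.mul_le_mul_right s hw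
    have b11 : u * s = u * (κ ^ D * K2) + u := by rw [es]; ring
    omega

end Pool.Agent.H382Z.EDT
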