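import Mathlib

/-!
# Balls, padded words and words without long repeated factors
-/

set_option linter.unusedSectionVars false

namespace Pool.Agent.H382Z.EDT

open Finset Pointwise

variable {G : Type} [Group G] [DecidableEq G]

/-- Products of at most `n` letters. -/
def ball (S : Finset G) (n : ℕ) : Finset G := (insert 1 S) ^ n

/-- Products of exactly `2 n` letters. -/
def sph (S : Finset G) (n : ℕ) : Finset G := (S * S) ^ n

/-- A symmetric alphabet with two distinct letters. -/
structure Alph (S : Finset G) (x y : G) : Prop where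
  symm : ∀ s ∈ S, s⁻¹ ∈ S
  hx : x ∈ S
  hy : y ∈ S
  ne : x ≠ y

variable {S : Finset G} {x y : G}

lemma one_mem_ball (S : Finset G) (n : ℕ) : (1 : G) ∈ ball S n :=
  Finset.one_mem_pow (mem_insert_self _ _)

lemma ball_mono (S : Finset G) {m n : ℕ} (h : m ≤ n) : ball S m ⊆ ball S n :=
  Finset.pow_subset_pow_right (mem_insert_self _ _) h

lemma mul_mem_ball {a b : G} {m n : ℕ} (ha : a ∈ ball S m) (hb : b ∈ ball S n) :
    a * b ∈ ball S (m + n) := by
  unfold ball; rw [pow_add]; exact Finset.mul_mem_mul ha hb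

lemma mem_ball_one {a : G} (ha : a ∈ S) : a ∈ ball S 1 := by
  unfold ball; rw [pow_one]; exact mem_insert_of_mem ha

lemma Alph.inv_eq (h : Alph S x y) : S⁻¹ = S := by
  ext s
  rw [Finset.mem_inv']
  exact ⟨fun e => by simpa using h.symm _ e, h.symm s⟩

lemma Alph.inv_mem_ball (h : Alph S x y) {a : G} {n : ℕ} (ha : a ∈ ball S n) : a⁻¹ ∈ ball S n := by
  have := Finset.inv_mem_inv ha
  unfold ball at *
  rwa [← inv_pow, Finset.inv_insert, inv_one, h.inv_eq] at this

lemma list_prod_mem_ball (l : List G) (hl : ∀ a ∈ l, a ∈ S) : l.prod ∈ ball S l.length := by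
  induction l with
  | nil => exact one_mem_ball S 0
  | cons a l ih =>
    rw [List.prod_cons, List.length_cons, add_comm]
    exact mul_mem_ball (mem_ball_one (hl a (by simp))) (ih fun b hb => hl b (by simp [hb]))

lemma card_ball_le (S : Finset G) (n : ℕ) : (ball S n).card ≤ (S.card + 1) ^ n :=
  Finset.card_pow_le.trans (Nat.pow_le_pow_left (card_insert_le _ _) n)

lemma Alph.one_mem (h : Alph S x y) : (1 : G) ∈ S * S := by
  have := Finset.mul_mem_mul h.hx (h.symm x h.hx)
  simpa using this

lemma Alph.one_mem_sph (h : Alph S x y) (n : ℕ) : (1 : G) ∈ sph S n := Finset.one_mem_pow h.one_mem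

lemma Alph.sph_mono (h : Alph S x y) {m n : ℕ} (e : m ≤ n) : sph S m ⊆ sph S n :=
  Finset.pow_subset_pow_right h.one_mem e

lemma mul_mem_sph {a b : G} {m n : ℕ} (ha : a ∈ sph S m) (hb : b ∈ sph S n) :
    a * b ∈ sph S (m + n) := by
  unfold sph; rw [pow_add]; exact Finset.mul_mem_mul ha hb

lemma Alph.inv_mem_sph (h : Alph S x y) {a : G} {n : ℕ} (ha : a ∈ sph S n) : a⁻¹ ∈ sph S n := by
  have := Finset.inv_mem_inv ha
  unfold sph at *
  rwa [← inv_pow, mul_inv_rev, h.inv_eq] at this

lemma sph_list {a : G} {n : ℕ} (ha : a ∈ sph S n) :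
    ∃ l : List G, l.length = 2 * n ∧ (∀ s ∈ l, s ∈ S) ∧ l.prod = a := by
  induction n generalizing a with
  | zero => exact ⟨[], rfl, by simp, by simpa [sph, eq_comm] using ha⟩
  | succ n ih =>
    unfold sph at ha
    rw [pow_succ] at ha
    obtain ⟨b, hb, c, hc, rfl⟩ := Finset.mem_mul.1 ha
    obtain ⟨s, hs, t, ht, rfl⟩ := Finset.mem_mul.1 hc
    obtain ⟨l, l1, l2, l3⟩ := ih hb
    refine ⟨l ++ [s, t], by simp [l1]; ring, ?_, by simp [l3]⟩
    intro u hu
    simp only [List.mem_append, List.mem_cons, List.not_mem_nil, or_false] at hu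
    rcases hu with e | rfl | rfl
    exacts [l2 u e, hs, ht]

lemma sph_sub_ball {n : ℕ} : sph S n ⊆ ball S (2 * n) := by
  intro a ha
  obtain ⟨l, l1, l2, rfl⟩ := sph_list ha
  exact l1 ▸ list_prod_mem_ball l l2

lemma Alph.ball_cases (h : Alph S x y) {n : ℕ} {a : G} (ha : a ∈ ball S n) :
    a ∈ sph S n ∨ a * x ∈ sph S n := by
  induction n generalizing a with
  | zero => left; simpa [ball, sph] using ha
  | succ n ih =>
    unfold ball at ha
    rw [pow_succ] at ha
    obtain ⟨b, hb, c, hc, rfl⟩ := Finset.mem_mul.1 ha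
    have s1 : ∀ u v, u ∈ S → v ∈ S → u * v ∈ sph S 1 := fun u v hu hv => by
      unfold sph; rw [pow_one]; exact Finset.mul_mem_mul hu hv
    rcases mem_insert.1 hc with rfl | hc
    · rw [mul_one]
      exact (ih hb).imp (fun e => h.sph_mono (by omega) e) (fun e => h.sph_mono (by omega) e)
    · rcases ih hb with e | e
      · right; rw [mul_assoc]; exact mul_mem_sph e (s1 _ _ hc h.hx)
      · left
        have := mul_mem_sph e (s1 _ _ (h.symm x h.hx) hc)
        simpa [mul_assoc] using this

lemma Alph.card_ball (h : Alph S x y) (n : ℕ) : (ball S n).card ≤ 2 * (sph S n).card := by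
  have : ball S n ⊆ sph S n ∪ (sph S n).image (fun a => a * x⁻¹) := by
    intro a ha
    rcases h.ball_cases ha with e | e
    · exact mem_union_left _ e
    · exact mem_union_right _ (mem_image.2 ⟨_, e, by simp⟩)
  have a := (card_le_card this).trans (card_union_le _ _)
  have b := card_image_le (s := sph S n) (f := fun a => a * x⁻¹)
  omega

lemma Alph.card_sph (h : Alph S x y) (hG : Subgroup.closure (S : Set G) = ⊤) [Infinite G]
    (n : ℕ) : n + 1 ≤ (sph S n).card := by
  refine Finset.add_one_le_card_pow h.one_mem ?_ n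
  intro hfin
  have hsub : ∀ m, ∀ a ∈ sph S m, a ∈ Subgroup.closure ((S * S : Finset G) : Set G) := by
    intro m
    induction m with
    | zero => intro a ha; have : a = 1 := by simpa [sph] using ha
              rw [this]; exact Subgroup.one_mem _
    | succ m ih =>
      intro a ha
      unfold sph at ha
      rw [pow_succ] at ha
      obtain ⟨b, hb, c, hc, rfl⟩ := Finset.mem_mul.1 ha
      exact Subgroup.mul_mem _ (ih b hb) (Subgroup.subset_closure hc)
  have hall : ∀ a : G, ∃ m, a ∈ ball S m := by
    intro a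
    have ha : a ∈ Subgroup.closure (S : Set G) := by rw [hG]; trivial
    induction ha using Subgroup.closure_induction with
    | mem s hs => exact ⟨1, mem_ball_one hs⟩
    | one => exact ⟨0, one_mem_ball S 0⟩
    | mul a b _ _ ha hb => obtain ⟨m, ha⟩ := ha; obtain ⟨n, hb⟩ := hb; exact ⟨_, mul_mem_ball ha hb⟩
    | inv a _ ha => obtain ⟨m, ha⟩ := ha; exact ⟨m, h.inv_mem_ball ha⟩
  refine Set.infinite_univ (α := G) ((hfin.union (hfin.image (fun a => a * x⁻¹))).subset ?_)
  intro a _
  obtain ⟨m, hm⟩ := hall a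
  rcases h.ball_cases hm with e | e
  · exact Or.inl (hsub m a e)
  · exact Or.inr ⟨_, hsub m _ e, by simp⟩

/-- `n` copies of the trivial word `x x⁻¹`. -/
def pad (x : G) : ℕ → List G
  | 0 => []
  | n + 1 => x :: x⁻¹ :: pad x n

lemma pad_length (x : G) (n : ℕ) : (pad x n).length = 2 * n := by
  induction n with
  | zero => rfl
  | succ n ih => simp [pad, ih]; ring

lemma pad_prod (x : G) (n : ℕ) : (pad x n).prod = 1 := by
  induction n with
  | zero => rfl
  | succ n ih => simp [pad, ih]

lemma pad_take (x : G) (n r : ℕ) : ((pad x n).take r).prod = 1 ∨ ((pad x n).take r).prod = x := by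
  induction n generalizing r with
  | zero => simp [pad]
  | succ n ih =>
    rcases r with _ | _ | r
    · simp
    · simp [pad]
    · simpa [pad] using ih r

lemma Alph.pad_mem (h : Alph S x y) (n : ℕ) : ∀ s ∈ pad x n, s ∈ S := by
  induction n with
  | zero => simp [pad]
  | succ n ih =>
    intro s hs
    simp only [pad, List.mem_cons] at hs
    rcases hs with rfl | rfl | e
    exacts [h.hx, h.symm _ h.hx, ih s e]

lemma Alph.exists_wd (h : Alph S x y) (Λ0 : ℕ) : ∃ wd : G → List G, ∀ a n, a ∈ sph S n → n ≤ Λ0 →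
    (wd a).length = 2 * Λ0 ∧ (∀ s ∈ wd a, s ∈ S) ∧ (wd a).prod = a ∧
      ∀ r, ((wd a).take r).prod ∈ ball S (2 * n + 1) := by
  have key : ∀ a : G, ∃ l : List G, ∀ n, a ∈ sph S n → n ≤ Λ0 →
      l.length = 2 * Λ0 ∧ (∀ s ∈ l, s ∈ S) ∧ l.prod = a ∧
        ∀ r, (l.take r).prod ∈ ball S (2 * n + 1) := by
    intro a
    by_cases ha : ∃ n, a ∈ sph S n
    · obtain ⟨l, l1, l2, l3⟩ := sph_list (Nat.find_spec ha)
      refine ⟨l ++ pad x (Λ0 - Nat.find ha), fun n hn hle => ?_⟩
      have hm : Nat.find ha ≤ n := Nat.find_min' ha hn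
      refine ⟨by rw [List.length_append, l1, pad_length]; omega, ?_, by simp [l3, pad_prod],
        fun r => ?_⟩
      · intro s hs
        rcases List.mem_append.1 hs with e | e
        exacts [l2 s e, h.pad_mem _ s e]
      · rw [List.take_append, List.prod_append]
        refine mul_mem_ball (ball_mono S ?_ (list_prod_mem_ball _
          fun s hs => l2 s (List.mem_of_mem_take hs))) ?_
        · rw [List.length_take]; omega
        · rcases pad_take x (Λ0 - Nat.find ha) (r - l.length) with e | e
          · rw [e]; exact one_mem_ball S 1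
          · rw [e]; exact mem_ball_one h.hx
    · exact ⟨[], fun n hn => absurd ⟨n, hn⟩ ha⟩
  choose wd hwd using key
  exact ⟨wd, hwd⟩

/-- Prefix products. -/
def pre (W : ℕ → G) : ℕ → G
  | 0 => 1
  | t + 1 => pre W t * W t

lemma pre_eq (W : ℕ → G) (t : ℕ) : ((List.range t).map W).prod = pre W t := by
  induction t with
  | zero => rfl
  | succ t ih => rw [List.range_succ, List.map_append, List.prod_append, ih]; simp [pre]

/-- The first letter of the `u`-th pair of the unit number `n`. -/
def base (x y : G) (n u : ℕ) : G :=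
  if u ≤ 3 then x else if (u - 4) % 3 = 0 then x else if (u - 4) % 3 = 1 then y
  else if n.testBit ((u - 4) / 3) then y else x

/-- The word with two real letters per unit, a marker and the binary code of the unit. -/
def coded (x y : G) (b : ℕ) (e : ℕ → G) (t : ℕ) : G :=
  if t % (8 + 6 * b) < 2 then e (2 * (t / (8 + 6 * b)) + t % (8 + 6 * b))
  else if t % (8 + 6 * b) % 2 = 0 then base x y (t / (8 + 6 * b)) (t % (8 + 6 * b) / 2)
  else (base x y (t / (8 + 6 * b)) (t % (8 + 6 * b) / 2))⁻¹

lemma Alph.base_mem (h : Alph S x y) (n u : ℕ) : base x y n u ∈ S := by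
  unfold base; split_ifs <;> first | exact h.hx | exact h.hy

lemma coded_at (x y : G) (b : ℕ) (e : ℕ → G) (n o : ℕ) (ho : o < 8 + 6 * b) :
    coded x y b e (n * (8 + 6 * b) + o) = if o < 2 then e (2 * n + o)
      else if o % 2 = 0 then base x y n (o / 2) else (base x y n (o / 2))⁻¹ := by
  have h1 : (n * (8 + 6 * b) + o) % (8 + 6 * b) = o := by
    rw [mul_comm, Nat.mul_add_mod, Nat.mod_eq_of_lt ho]
  have h2 : (n * (8 + 6 * b) + o) / (8 + 6 * b) = n := by
    rw [mul_comm, Nat.mul_add_div (by omega), Nat.div_eq_of_lt ho, add_zero]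
  unfold coded; rw [h1, h2]

/-- The correction inside a trivial pair. -/
def corr (x y : G) (n o : ℕ) : G := if 2 ≤ o ∧ o % 2 = 1 then base x y n (o / 2) else 1

lemma pre_coded_aux (x y : G) (b : ℕ) (e : ℕ → G) (n : ℕ)
    (h0 : pre (coded x y b e) (n * (8 + 6 * b)) = pre e (2 * n)) (o : ℕ) (ho : o ≤ 8 + 6 * b) :
    pre (coded x y b e) (n * (8 + 6 * b) + o) = pre e (2 * n + min o 2) * corr x y n o := by
  induction o with
  | zero => simpa [corr] using h0
  | succ o ih =>
    rw [← add_assoc, pre, ih (by omega), coded_at x y b e n o (by omega)]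
    unfold corr
    by_cases h1 : o < 2
    · have e1 : min o 2 = o := by omega
      have e2 : min (o + 1) 2 = o + 1 := by omega
      rw [if_pos h1, e1, e2, if_neg (by omega), if_neg (by omega), ← add_assoc, pre]; simp
    · have e1 : min o 2 = 2 := by omega
      have e2 : min (o + 1) 2 = 2 := by omega
      rw [if_neg h1, e1, e2]
      by_cases h2 : o % 2 = 0
      · rw [if_pos h2, if_neg (by omega), if_pos (by omega), show (o + 1) / 2 = o / 2 by omega]
        simp
      · rw [if_neg h2, if_pos (by omega), if_neg (by omega)]; simp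

lemma pre_coded (x y : G) (b : ℕ) (e : ℕ → G) (n o : ℕ) (ho : o ≤ 8 + 6 * b) :
    pre (coded x y b e) (n * (8 + 6 * b) + o) = pre e (2 * n + min o 2) * corr x y n o := by
  refine pre_coded_aux x y b e n ?_ o ho
  induction n with
  | zero => simp [pre]
  | succ n ih =>
    have := pre_coded_aux x y b e n ih (8 + 6 * b) le_rfl
    rw [add_mul, one_mul, this, corr, if_neg (by omega), show min (8 + 6 * b) 2 = 2 by omega]
    simp [mul_add]

lemma sync (hne : x ≠ y) {b : ℕ} (hb : 1 ≤ b) (e : ℕ → G) (t : ℕ) :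
    (t + 6) % (8 + 6 * b) = 8 ↔ (coded x y b e (t + 8) ≠ coded x y b e (t + 6) ∧
      ∀ v < 6, coded x y b e (t + v + 2) = coded x y b e (t + v)) := by
  set P := 8 + 6 * b with hP
  have brk : ∀ n l, l < b → coded x y b e (n * P + (8 + 6 * l) + 2) ≠
      coded x y b e (n * P + (8 + 6 * l)) ∧ coded x y b e (n * P + (8 + 6 * l) + 1 + 2) ≠
      coded x y b e (n * P + (8 + 6 * l) + 1) := by
    intro n l hl
    have b1 : base x y n (4 + 3 * l) = x := by
      unfold base; rw [if_neg (by omega), if_pos (by omega)]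
    have b2 : base x y n (5 + 3 * l) = y := by
      unfold base; rw [if_neg (by omega), if_neg (by omega), if_pos (by omega)]
    constructor
    · rw [add_assoc (n * P), coded_at _ _ _ _ _ _ (by omega), coded_at _ _ _ _ _ _ (by omega),
        if_neg (by omega), if_pos (by omega), if_neg (by omega), if_pos (by omega),
        show (8 + 6 * l + 2) / 2 = 5 + 3 * l by omega, show (8 + 6 * l) / 2 = 4 + 3 * l by omega,
        b1, b2]
      exact hne.symm
    · rw [add_assoc (n * P) (8 + 6 * l) 1, add_assoc (n * P) (8 + 6 * l + 1) 2,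
        coded_at _ _ _ _ _ _ (by omega), coded_at _ _ _ _ _ _ (by omega),
        if_neg (by omega), if_neg (by omega), if_neg (by omega), if_neg (by omega),
        show (8 + 6 * l + 1 + 2) / 2 = 5 + 3 * l by omega,
        show (8 + 6 * l + 1) / 2 = 4 + 3 * l by omega, b1, b2]
      exact fun h => hne (inv_injective h).symm
  have nbrk : ∀ n o, 2 ≤ o → o ≤ 7 → coded x y b e (n * P + o + 2) = coded x y b e (n * P + o) := by
    intro n o h1 h2
    have b1 : ∀ u ≤ 4, base x y n u = x := by
      intro u hu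
      unfold base
      by_cases h : u ≤ 3
      · rw [if_pos h]
      · rw [if_neg h, if_pos (by omega)]
    rw [add_assoc, coded_at _ _ _ _ _ _ (by omega), coded_at _ _ _ _ _ _ (by omega),
      if_neg (show ¬ o + 2 < 2 by omega), if_neg (show ¬ o < 2 by omega), b1 _ (by omega),
      b1 _ (by omega), show (o + 2) % 2 = o % 2 by omega]
  obtain ⟨n, o, ho, ht⟩ : ∃ n o, o < P ∧ t + 6 = n * P + o :=
    ⟨(t + 6) / P, (t + 6) % P, Nat.mod_lt _ (by omega), (Nat.div_add_mod' _ _).symm⟩
  have hmod : (t + 6) % P = o := by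
    rw [ht, mul_comm, Nat.mul_add_mod, Nat.mod_eq_of_lt ho]
  rw [hmod]
  constructor
  · rintro rfl
    refine ⟨?_, fun v hv => ?_⟩
    · have := (brk n 0 (by omega)).1
      rw [show t + 8 = n * P + (8 + 6 * 0) + 2 by omega, show t + 6 = n * P + (8 + 6 * 0) by omega]
      exact this
    · rw [show t + v = n * P + (2 + v) by omega]
      exact nbrk n _ (by omega) (by omega)
  · rintro ⟨h1, h2⟩
    by_contra hne8
    by_cases c1 : o < 2
    · obtain ⟨n', rfl⟩ : ∃ n', n = n' + 1 := ⟨n - 1, by
        rcases n with _ | n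
        · omega
        · simp⟩
      rw [add_mul, one_mul] at ht
      have := brk n' (b - 1) (by omega)
      by_cases c2 : o = 0
      · exact this.1 (by
          have := h2 0 (by omega)
          rwa [show t + 0 = n' * P + (8 + 6 * (b - 1)) by omega] at this)
      · exact this.2 (by
          have := h2 0 (by omega)
          rwa [show t + 0 = n' * P + (8 + 6 * (b - 1)) + 1 by omega] at this)
    · by_cases c2 : o ≤ 7
      · apply h1
        rw [show t + 8 = n * P + o + 2 by omega, ht]
        exact nbrk n o (by omega) c2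
      · have := brk n ((o - 9) / 6) (by omega)
        refine this.1 ?_
        have h3 := h2 (8 + 6 * ((o - 9) / 6) + 6 - o) (by omega)
        rwa [show t + (8 + 6 * ((o - 9) / 6) + 6 - o) = n * P + (8 + 6 * ((o - 9) / 6)) by omega]
          at h3

theorem no_repeat (hne : x ≠ y) {b : ℕ} (hb : 1 ≤ b) (e : ℕ → G) {i i' : ℕ}
    (hi : i + (2 * (8 + 6 * b) + 6) ≤ 2 ^ b * (8 + 6 * b))
    (hi' : i' + (2 * (8 + 6 * b) + 6) ≤ 2 ^ b * (8 + 6 * b))
    (h : ∀ u < 2 * (8 + 6 * b) + 6, coded x y b e (i + u) = coded x y b e (i' + u)) : i = i' := by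
  set P := 8 + 6 * b with hP
  have hP0 : 0 < P := by omega
  obtain ⟨u, hu, hu8⟩ : ∃ u < P, (i + u + 6) % P = 8 := by
    have hm := Nat.mod_lt i hP0
    have hd := Nat.div_add_mod' i P
    by_cases c : i % P ≤ 2
    · refine ⟨2 - i % P, by omega, ?_⟩
      rw [show i + (2 - i % P) + 6 = i / P * P + 8 by omega, mul_comm, Nat.mul_add_mod,
        Nat.mod_eq_of_lt (by omega)]
    · refine ⟨P + 2 - i % P, by omega, ?_⟩
      rw [show i + (P + 2 - i % P) + 6 = (i / P + 1) * P + 8 by rw [add_mul]; omega, mul_comm,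
        Nat.mul_add_mod, Nat.mod_eq_of_lt (by omega)]
  have s1 := (sync hne hb e (i + u)).1 hu8
  have s2 : (i' + u + 6) % P = 8 := by
    refine (sync hne hb e (i' + u)).2 ⟨?_, fun v hv => ?_⟩
    · rw [add_assoc, add_assoc, ← h _ (by omega), ← h _ (by omega), ← add_assoc, ← add_assoc]
      exact s1.1
    · rw [add_assoc, add_assoc, add_assoc, ← h _ (by omega), ← h _ (by omega), ← add_assoc,
        ← add_assoc, ← add_assoc]
      exact s1.2 v hv
  have d1 := Nat.div_add_mod' (i + u + 6) P
  have d2 := Nat.div_add_mod' (i' + u + 6) P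
  rw [hu8] at d1
  rw [s2] at d2
  set n := (i + u + 6) / P
  set n' := (i' + u + 6) / P
  have l1 : n < 2 ^ b := by
    by_contra c
    have := Nat.mul_le_mul_right P (not_lt.1 c)
    omega
  have l2 : n' < 2 ^ b := by
    by_contra c
    have := Nat.mul_le_mul_right P (not_lt.1 c)
    omega
  have : n = n' := by
    apply Nat.eq_of_testBit_eq
    intro l
    by_cases hl : l < b
    · have h3 := h (u + 6 + 6 * l + 4) (by omega)
      rw [show i + (u + 6 + 6 * l + 4) = n * P + (12 + 6 * l) by omega,
        show i' + (u + 6 + 6 * l + 4) = n' * P + (12 + 6 * l) by omega,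
        coded_at _ _ _ _ _ _ (by omega), coded_at _ _ _ _ _ _ (by omega),
        if_neg (by omega), if_pos (by omega), if_neg (by omega), if_pos (by omega),
        show (12 + 6 * l) / 2 = 6 + 3 * l by omega] at h3
      have bb : ∀ n, base x y n (6 + 3 * l) = if n.testBit l then y else x := by
        intro n
        unfold base
        rw [if_neg (by omega), if_neg (by omega), if_neg (by omega),
          show (6 + 3 * l - 4) / 3 = l by omega]
      rw [bb, bb] at h3
      cases h4 : n.testBit l <;> cases h5 : n'.testBit l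
      · rfl
      · rw [h4, h5] at h3; simp at h3; exact absurd h3 hne
      · rw [h4, h5] at h3; simp at h3; exact absurd h3.symm hne
      · rfl
    · rw [Nat.testBit_lt_two_pow (l1.trans_le (Nat.pow_le_pow_right (by omega) (by omega))),
        Nat.testBit_lt_two_pow (l2.trans_le (Nat.pow_le_pow_right (by omega) (by omega)))]
  rw [this] at d1
  omega

end Pool.Agent.H382Z.EDT
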