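import Pool.Agent.H382Z.EDT.Struct
import Pool.Agent.H382Z.EDT.Word

/-!
# The hierarchical heights and the test words
-/

set_option linter.unusedSectionVars false

namespace Pool.Agent.H382Z.EDT

open Finset

variable {G : Type} [Group G] [DecidableEq G] {S : Finset G} {x y : G}

lemma pre_congr {f f' : ℕ → G} {n : ℕ} (h : ∀ a < n, f a = f' a) : pre f n = pre f' n := by
  induction n with
  | zero => rfl
  | succ n ih => rw [pre, pre, ih (fun a ha => h a (by omega)), h n (by omega)]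

lemma pre_delta {f f' : ℕ → G} {i n : ℕ} (h : ∀ a, a ≠ i → f a = f' a) (hn : i < n) :
    pre f' n = (pre f i * f' i * (f i)⁻¹ * (pre f i)⁻¹) * pre f n := by
  induction n, hn using Nat.le_induction with
  | base =>
    have : pre f i = pre f' i := pre_congr fun a ha => h a (by omega)
    rw [pre, pre, ← this]; group
  | succ n hn ih => rw [pre, pre, ih, h n (by omega)]; group

lemma pre_mem_sph {f : ℕ → G} {R : ℕ} (hf : ∀ a, f a ∈ sph S R) (h : Alph S x y) (n : ℕ) :
    pre f n ∈ sph S (n * R) := by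
  induction n with
  | zero => simpa [pre] using h.one_mem_sph 0
  | succ n ih => rw [pre, add_mul, one_mul]; exact mul_mem_sph ih (hf n)

/-- The contribution of the round `j` in the zone `c`. -/
def Gp (g : ℕ → ℕ → G) (L j c : ℕ) : G :=
  if c % L = L - 1 then 1 else pre (fun a => g j (c / L * L + a + 1)) (c % L)

/-- The product of the contributions of the rounds below `j`. -/
def Low (g : ℕ → ℕ → G) (L B : ℕ) : ℕ → ℕ → G
  | 0, _ => 1
  | j + 1, ρ => Gp g L j (ρ / (B ^ j * L)) * Low g L B j ρ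

/-- The variable of the zone `c` is felt in the zone `d`. -/
def Act (L c d : ℕ) : Prop := c ≤ d ∧ d < cH L c

lemma div_add_lt {L q a : ℕ} (ha : a < L) : (q * L + a) / L = q :=
  (div_eq_iff' (by omega)).2 ⟨by omega, by omega⟩

lemma Act.div {L c d : ℕ} (hL : 0 < L) (h : Act L c d) : d / L = c / L ∧ c % L ≤ d % L ∧
    d % L < L - 1 := by
  obtain ⟨h1, h2⟩ := h
  unfold cH at h2
  have e := Nat.div_add_mod' c L
  have e1 : d / L = c / L := (div_eq_iff' hL).2 ⟨by omega, by omega⟩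
  have e2 := Nat.div_add_mod' d L
  rw [e1] at e2
  exact ⟨e1, by omega, by omega⟩

lemma Gp_congr {g g' : ℕ → ℕ → G} {L j d : ℕ} (hL : 0 < L)
    (h : ∀ c, Act L c d → g j c = g' j c) : Gp g L j d = Gp g' L j d := by
  unfold Gp
  split_ifs with h1
  · rfl
  · refine pre_congr fun a ha => h _ ?_
    have e := Nat.div_add_mod' d L
    have e1 := Nat.mod_lt d hL
    unfold Act cH
    rw [add_assoc, div_add_lt (by omega)]
    omega

lemma Low_congr {g g' : ℕ → ℕ → G} {L B D ρ : ℕ} (hL : 0 < L)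
    (h : ∀ j < D, ∀ c, Act L c (ρ / (B ^ j * L)) → g j c = g' j c) :
    Low g L B D ρ = Low g' L B D ρ := by
  induction D with
  | zero => rfl
  | succ D ih => rw [Low, Low, ih fun j hj => h j (by omega), Gp_congr hL (h D (by omega))]

lemma Gp_delta {g g' : ℕ → ℕ → G} {L j c : ℕ} (hL : 0 < L) (hc : 1 ≤ c % L)
    (h : ∀ c', c' ≠ c → g j c' = g' j c') :
    ∃ δ : G, (δ = 1 → g j c = g' j c) ∧ ∀ d, Act L c d → Gp g' L j d = δ * Gp g L j d := by
  have e := Nat.div_add_mod' c L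
  have ec : c / L * L + (c % L - 1) + 1 = c := by omega
  refine ⟨pre (fun a => g j (c / L * L + a + 1)) (c % L - 1) * g' j c * (g j c)⁻¹ *
    (pre (fun a => g j (c / L * L + a + 1)) (c % L - 1))⁻¹, fun e1 => ?_, fun d hd => ?_⟩
  · rw [mul_inv_eq_one, mul_assoc, mul_eq_left, mul_inv_eq_one] at e1
    exact e1.symm
  · obtain ⟨d1, d2, d3⟩ := hd.div hL
    unfold Gp
    rw [if_neg (by omega), if_neg (by omega), d1]
    have := pre_delta (f := fun a => g j (c / L * L + a + 1))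
      (f' := fun a => g' j (c / L * L + a + 1)) (i := c % L - 1) (n := d % L)
      (fun a ha => h _ (by omega)) (by omega)
    simp only [ec] at this
    exact this

lemma Low_delta {g g' : ℕ → ℕ → G} {L m D j c : ℕ} (hL : 0 < L) (hc : 1 ≤ c % L) (hj : j < D)
    (h : ∀ j' c', ¬ (j' = j ∧ c' = c) → g j' c' = g' j' c') :
    ∃ δ : G, (δ = 1 → g j c = g' j c) ∧ ∀ ρ, Act L c (ρ / ((L * L * m) ^ j * L)) →
      Low g' L (L * L * m) D ρ = δ * Low g L (L * L * m) D ρ := by
  induction D, hj using Nat.le_induction with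
  | base =>
    obtain ⟨δ, d1, d2⟩ := Gp_delta (g := g) (g' := g') (j := j) hL hc
      (fun c' hc' => h j c' (fun e => hc' e.2))
    refine ⟨δ, d1, fun ρ hρ => ?_⟩
    rw [Low, Low, d2 _ hρ, Low_congr (g := g') (g' := g) hL
      (fun j' hj' c' _ => (h j' c' (by omega)).symm), mul_assoc]
  | succ D hD ih =>
    obtain ⟨δ, d1, d2⟩ := ih
    obtain ⟨n, rfl⟩ : ∃ n, D = j + 1 + n := ⟨D - (j + 1), by omega⟩
    let q := c / L / (m * (L * L * m) ^ n * L)
    refine ⟨Gp g L (j + 1 + n) q * δ * (Gp g L (j + 1 + n) q)⁻¹, fun e => d1 ?_, fun ρ hρ => ?_⟩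
    · rwa [mul_inv_eq_one, mul_eq_left] at e
    · have e1 : ρ / ((L * L * m) ^ (j + 1 + n) * L) = q := by
        have : (L * L * m) ^ (j + 1 + n) * L =
            (L * L * m) ^ j * L * L * (m * (L * L * m) ^ n * L) := by ring
        rw [this, ← Nat.div_div_eq_div_mul ρ ((L * L * m) ^ j * L * L),
          ← Nat.div_div_eq_div_mul ρ ((L * L * m) ^ j * L), (hρ.div hL).1]
      rw [Low, Low, e1, d2 _ hρ, Gp_congr (g := g') (g' := g) hL
        (fun c' _ => (h _ c' (by omega)).symm)]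
      group

lemma Low_mem (h : Alph S x y) {g : ℕ → ℕ → G} {L B D R : ℕ} (hL : 0 < L)
    (hg : ∀ j < D, ∀ c, g j c ∈ sph S R) (ρ : ℕ) : Low g L B D ρ ∈ sph S (D * L * R) := by
  induction D with
  | zero => simpa [Low] using h.one_mem_sph 0
  | succ D ih =>
    rw [Low, show (D + 1) * L * R = L * R + D * L * R by ring]
    refine mul_mem_sph ?_ (ih fun j hj => hg j (by omega))
    unfold Gp
    split_ifs
    · exact h.one_mem_sph _
    · exact h.sph_mono (Nat.mul_le_mul_right R (Nat.mod_lt _ hL).le)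
        (pre_mem_sph (fun a => hg D (by omega) _) h _)

lemma Low_cancel {g : ℕ → ℕ → G} {L B D j ρ ρ' : ℕ} (hj : j ≤ D)
    (h : ∀ j', j ≤ j' → j' < D → Gp g L j' (ρ / (B ^ j' * L)) = Gp g L j' (ρ' / (B ^ j' * L))) :
    (Low g L B D ρ)⁻¹ * Low g L B D ρ' = (Low g L B j ρ)⁻¹ * Low g L B j ρ' := by
  induction D, hj using Nat.le_induction with
  | base => rfl
  | succ D hD ih =>
    rw [Low, Low, h D hD (by omega), ← ih fun j' a b => h j' a (by omega)]
    group

lemma Gp_zero (g : ℕ → ℕ → G) {L j c : ℕ} (hc : c % L = 0) : Gp g L j c = 1 := by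
  unfold Gp; rw [hc]; split_ifs <;> rfl

lemma Low_zero (g : ℕ → ℕ → G) (L B D : ℕ) : Low g L B D 0 = 1 := by
  induction D with
  | zero => rfl
  | succ D ih => rw [Low, ih, Nat.zero_div, Gp_zero g (Nat.zero_mod L), mul_one]

lemma pred_div {γ n : ℕ} (hγ : 0 < γ) (hn : 0 < n) : (n * γ - 1) / γ = n - 1 := by
  obtain ⟨n, rfl⟩ : ∃ n', n = n' + 1 := ⟨n - 1, by omega⟩
  refine (div_eq_iff' hγ).2 ?_
  rw [add_mul, one_mul, Nat.add_sub_cancel]
  omega

lemma pred_mod {L n : ℕ} (hL : 0 < L) (hn : 0 < n) (h : n % L = 0) : (n - 1) % L = L - 1 := by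
  have e := Nat.div_add_mod' n L
  have e1 : n / L * L = n := by omega
  have e2 : 0 < n / L := by
    by_contra c
    rw [Nat.eq_zero_of_not_pos c] at e1; omega
  have e3 := Nat.div_add_mod' (n - 1) L
  have e4 := pred_div hL e2
  rw [e1] at e4
  rw [e4] at e3
  obtain ⟨q, hq⟩ : ∃ q, n / L = q + 1 := ⟨n / L - 1, by omega⟩
  rw [hq, add_mul, one_mul] at e1
  rw [hq, Nat.add_sub_cancel] at e3
  omega

lemma Low_last (g : ℕ → ℕ → G) {L m D : ℕ} (hL : 0 < L) (hm : 0 < m) :
    Low g L (L * L * m) D ((L * L * m) ^ D - 1) = 1 := by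
  have hB : 0 < L * L * m := by positivity
  have : ∀ j ≤ D, Low g L (L * L * m) j ((L * L * m) ^ D - 1) = 1 := by
    intro j hj
    induction j with
    | zero => rfl
    | succ j ih =>
      obtain ⟨n, rfl⟩ : ∃ n, D = j + 1 + n := ⟨D - (j + 1), by omega⟩
      rw [Low, ih (by omega), mul_one]
      have e : (L * L * m) ^ (j + 1 + n) = (m * (L * L * m) ^ n * L) * ((L * L * m) ^ j * L) := by
        ring
      rw [e, pred_div (by positivity) (by positivity)]
      unfold Gp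
      rw [if_pos (pred_mod hL (by positivity) (Nat.mul_mod_left _ _))]
  exact this D le_rfl

lemma pre_runs {H : ℕ → G} {w : ℕ → List G} {n : ℕ} (h0 : H 0 = 1)
    (h1 : ∀ ρ, (w ρ).length = n) (h2 : ∀ ρ, (w ρ).prod = (H (ρ - 1))⁻¹ * H ρ) (ρ r : ℕ)
    (hr : r ≤ n) : pre (fun i => (w (i / n)).getD (i % n) 1) (ρ * n + r) =
      H (ρ - 1) * ((w ρ).take r).prod := by
  have key : ∀ ρ, pre (fun i => (w (i / n)).getD (i % n) 1) (ρ * n) = H (ρ - 1) →
      ∀ r ≤ n, pre (fun i => (w (i / n)).getD (i % n) 1) (ρ * n + r) =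
      H (ρ - 1) * ((w ρ).take r).prod := by
    intro ρ e r hr
    induction r with
    | zero => simpa using e
    | succ r ih =>
      have a1 : (ρ * n + r) / n = ρ := div_add_lt (by omega)
      have a2 : (ρ * n + r) % n = r := by
        rw [mul_comm, Nat.mul_add_mod, Nat.mod_eq_of_lt (by omega)]
      have a3 : r < (w ρ).length := by rw [h1]; omega
      rw [← add_assoc, pre, ih (by omega), a1, a2, List.take_add_one, List.prod_append,
        List.getElem?_eq_getElem a3, List.getD_eq_getElem _ _ a3]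
      simp [mul_assoc]
  refine key ρ ?_ r hr
  induction ρ with
  | zero => simp [pre, h0]
  | succ ρ ih =>
    rw [add_mul, one_mul, key ρ ih n le_rfl, List.take_of_length_le (h1 ρ).le, h2]
    simp

/-- The value of the test word with heights `H` at the position `t`. -/
def val (T : G → ℕ → G) (Λ : ℕ) (H : ℕ → G) (t : ℕ) : G :=
  H (t / Λ - 1) * T ((H (t / Λ - 1))⁻¹ * H (t / Λ)) t

theorem Alph.exists_word (h : Alph S x y) {Λ0 b : ℕ} (hΛ0 : 0 < Λ0) (hb : 1 ≤ b) :
    ∃ T : G → ℕ → G, (∀ a t, t % (Λ0 * (8 + 6 * b)) = 0 → T a t = 1) ∧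
      (∀ a n t, a ∈ sph S n → n ≤ Λ0 → T a t ∈ ball S (2 * n + 2)) ∧
      ∀ H : ℕ → G, H 0 = 1 → (∀ ρ, (H (ρ - 1))⁻¹ * H ρ ∈ sph S Λ0) →
        ∃ W : ℕ → G, (∀ t, W t ∈ S) ∧ (∀ t, pre W t = val T (Λ0 * (8 + 6 * b)) H t) ∧
          ∀ i i', i + (2 * (8 + 6 * b) + 6) ≤ 2 ^ b * (8 + 6 * b) →
            i' + (2 * (8 + 6 * b) + 6) ≤ 2 ^ b * (8 + 6 * b) →
            (∀ u < 2 * (8 + 6 * b) + 6, W (i + u) = W (i' + u)) → i = i' := by
  obtain ⟨wd, hwd⟩ := h.exists_wd Λ0
  set P := 8 + 6 * b with hP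
  have hP0 : 0 < P := by omega
  refine ⟨fun a t => ((wd a).take (2 * (t / P % Λ0) + min (t % P) 2)).prod *
    corr x y (t / P) (t % P), fun a t ht => ?_, fun a n t ha hn => ?_, fun H h0 h1 => ?_⟩
  · obtain ⟨q, rfl⟩ := Nat.dvd_of_mod_eq_zero ht
    have e1 : Λ0 * P * q % P = 0 := by rw [mul_right_comm]; exact Nat.mul_mod_left _ _
    have e2 : Λ0 * P * q / P % Λ0 = 0 := by
      rw [mul_right_comm, Nat.mul_div_cancel _ hP0]; exact Nat.mul_mod_right _ _
    simp [e1, e2, corr]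
  · refine mul_mem_ball ((hwd a n ha hn).2.2.2 _) (n := 1) ?_
    unfold corr
    split_ifs
    · exact mem_ball_one (h.base_mem _ _)
    · exact one_mem_ball S 1
  · let w : ℕ → List G := fun ρ => wd ((H (ρ - 1))⁻¹ * H ρ)
    have w1 : ∀ ρ, (w ρ).length = 2 * Λ0 := fun ρ => (hwd _ _ (h1 ρ) le_rfl).1
    have w2 : ∀ ρ, (w ρ).prod = (H (ρ - 1))⁻¹ * H ρ := fun ρ => (hwd _ _ (h1 ρ) le_rfl).2.2.1
    refine ⟨coded x y b (fun i => (w (i / (2 * Λ0))).getD (i % (2 * Λ0)) 1), fun t => ?_,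
      fun t => ?_, fun i i' a1 a2 a3 => no_repeat h.ne hb _ a1 a2 a3⟩
    · unfold coded
      split_ifs
      · have : ∀ i, (w (i / (2 * Λ0))).getD (i % (2 * Λ0)) 1 ∈ S := by
          intro i
          have a3 : i % (2 * Λ0) < (w (i / (2 * Λ0))).length := by
            rw [w1]; exact Nat.mod_lt _ (by omega)
          rw [List.getD_eq_getElem _ _ a3]
          exact (hwd _ _ (h1 _) le_rfl).2.1 _ (List.getElem_mem _)
        exact this _
      · exact h.base_mem _ _
      · exact h.symm _ (h.base_mem _ _)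
    · have e1 := Nat.div_add_mod' t P
      have e2 := Nat.div_add_mod' (t / P) Λ0
      have e3 := Nat.mod_lt (t / P) hΛ0
      have e4 : t / (Λ0 * P) = t / P / Λ0 := by rw [Nat.div_div_eq_div_mul, mul_comm]
      have := pre_coded x y b (fun i => (w (i / (2 * Λ0))).getD (i % (2 * Λ0)) 1) (t / P) (t % P)
        (Nat.mod_lt _ hP0).le
      rw [← hP, e1, show 2 * (t / P) + min (t % P) 2 = t / P / Λ0 * (2 * Λ0) +
        (2 * (t / P % Λ0) + min (t % P) 2) by rw [mul_left_comm]; omega,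
        pre_runs h0 w1 w2 _ _ (by omega)] at this
      rw [this, val, e4, mul_assoc]

end Pool.Agent.H382Z.EDT
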