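import Pool.Agent.H382Z.EDT.Sweep

/-!
# The structure lemma for sweeps
-/

namespace Pool.Agent.H382Z.EDT

open Finset

variable {k N Λ T : ℕ} {I : ℕ → Fin k → ℕ × ℕ}

/-- The last zone of the period of the zone `c`. -/
def cH (L c : ℕ) : ℕ := c / L * L + (L - 1)

/-- Between the run of `c` and the closing run of its period. -/
def Inn (Λ S L c p : ℕ) : Prop := c * S + Λ ≤ p ∧ p ≤ cH L c * S

/-- Before the run of `c` or after the closing run of its period. -/
def Out (Λ S L c p : ℕ) : Prop := p ≤ c * S ∨ cH L c * S + Λ ≤ p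

/-- Exactly one interval has exactly one end point in the inner range. -/
def Sep (Λ S L : ℕ) (cfg : Fin k → ℕ × ℕ) (c : ℕ) : Prop :=
  (∀ p ∈ ends cfg, Inn Λ S L c p ∨ Out Λ S L c p) ∧
    ∃ i0, ¬ (Inn Λ S L c (cfg i0).1 ↔ Inn Λ S L c (cfg i0).2) ∧
      ∀ i, i ≠ i0 → (Inn Λ S L c (cfg i).1 ↔ Inn Λ S L c (cfg i).2)

lemma cH_ge {L c S : ℕ} (h : c % L < L - 1) : c * S + S ≤ cH L c * S := by
  have : c + 1 ≤ cH L c := by
    have := Nat.div_add_mod' c L
    unfold cH; omega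
  calc c * S + S = (c + 1) * S := by ring
    _ ≤ _ := Nat.mul_le_mul_right S this

lemma Sweep.sep (h : Sweep N Λ T I) {S L t c : ℕ} (hΛ : 0 < Λ) (hS : Λ ≤ S)
    (hc : c % L < L - 1) (d1 : ¬ Dirty Λ (I t) (c * S)) (d2 : ¬ Dirty Λ (I t) (cH L c * S))
    (hm : ¬ (In (I t) (c * S) ↔ In (I t) (cH L c * S))) : Sep Λ S L (I t) c := by
  have hlt := cH_ge (S := S) hc
  have cls : ∀ p ∈ ends (I t), Inn Λ S L c p ∨ Out Λ S L c p := by
    intro p hp
    have a : ¬ (c * S < p ∧ p < c * S + Λ) := fun e => d1 ⟨p, hp, e⟩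
    have b : ¬ (cH L c * S < p ∧ p < cH L c * S + Λ) := fun e => d2 ⟨p, hp, e⟩
    unfold Inn Out; omega
  refine ⟨cls, ?_⟩
  have sh : ∀ i, (I t i).1 ≤ (I t i).2 := by
    intro i
    rcases h.shape t i with e | e
    · omega
    · rw [e]
  by_cases h1 : In (I t) (c * S)
  · have h2 : ¬ In (I t) (cH L c * S) := fun e => hm ⟨fun _ => e, fun _ => h1⟩
    obtain ⟨i0, a, b⟩ := h1
    have n0 : ∀ i, ¬ ((I t i).1 ≤ cH L c * S ∧ cH L c * S < (I t i).2) := fun i e => h2 ⟨i, e⟩
    refine ⟨i0, ?_, fun i hi => ?_⟩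
    · have := cls _ (snd_mem_ends (I t) i0)
      have := n0 i0
      unfold Inn Out at *; omega
    · have a1 := cls _ (fst_mem_ends (I t) i)
      have a2 := cls _ (snd_mem_ends (I t) i)
      have a3 := n0 i
      have a4 : ¬ ((I t i).1 ≤ c * S ∧ c * S < (I t i).2) :=
        fun e => hi (h.disj t i i0 _ e.1 e.2 a b)
      have a5 := sh i
      unfold Inn Out at *; omega
  · have h2 : In (I t) (cH L c * S) := by
      by_contra e; exact hm ⟨fun e' => absurd e' h1, fun e' => absurd e' e⟩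
    obtain ⟨i0, a, b⟩ := h2
    have n0 : ∀ i, ¬ ((I t i).1 ≤ c * S ∧ c * S < (I t i).2) := fun i e => h1 ⟨i, e⟩
    refine ⟨i0, ?_, fun i hi => ?_⟩
    · have := cls _ (fst_mem_ends (I t) i0)
      have := n0 i0
      unfold Inn Out at *; omega
    · have a1 := cls _ (fst_mem_ends (I t) i)
      have a2 := cls _ (snd_mem_ends (I t) i)
      have a3 := n0 i
      have a4 : ¬ ((I t i).1 ≤ cH L c * S ∧ cH L c * S < (I t i).2) :=
        fun e => hi (h.disj t i i0 _ e.1 e.2 a b)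
      have a5 := sh i
      unfold Inn Out at *; omega

/-- The period `q` lies in one interval. -/
def Free (S L : ℕ) (cfg : Fin k → ℕ × ℕ) (q : ℕ) : Prop :=
  ∃ i, (cfg i).1 ≤ q * (L * S) ∧ q * (L * S) + L * S ≤ (cfg i).2

lemma zone_bounds {S L q a : ℕ} (ha : a < L) :
    q * (L * S) ≤ (q * L + a) * S ∧ (q * L + a) * S + S ≤ q * (L * S) + L * S := by
  constructor
  · nlinarith [Nat.zero_le (a * S)]
  · have : (a + 1) * S ≤ L * S := Nat.mul_le_mul_right S ha
    nlinarith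

lemma Sweep.select (h : Sweep N Λ T I) {S L J : ℕ} {f σ : ℕ → ℕ} (hΛ : 0 < Λ) (hS : Λ ≤ S)
    (hL : 16 * k + 1 < L) (hf : Chain N I S J f)
    (hσ : ∀ i < J, f i ≤ σ i ∧ σ i ≤ f (i + 1))
    (hcl : ∀ i < J, ∀ c, c % L ≠ 0 → ¬ Dirty Λ (I (σ i)) (c * S)) (i : ℕ)
    (hi : i + (2 * k * (L + 1) + 2) < J) :
    ∃ i' c, i < i' ∧ i' ≤ i + (2 * k * (L + 1) + 2) ∧ 1 ≤ c % L ∧ c % L < L - 1 ∧ c * S < N ∧
      Sep Λ S L (I (σ i')) c ∧ Free S L (I (σ i)) (c / L) := by
  classical
  set Δ := 2 * k * (L + 1) + 2 with hΔ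
  have hS0 : 0 < S := by omega
  have hL0 : 0 < L := by omega
  have hLS : 0 < L * S := Nat.mul_pos hL0 hS0
  let P : ℕ → Prop := fun i' => ∃ q a, Free S L (I (σ i)) q ∧ 1 ≤ a ∧ a < L ∧
    ¬ In (I (σ i')) ((q * L + a) * S)
  have hfree : ∀ q a, Free S L (I (σ i)) q → a < L → In (I (σ i)) ((q * L + a) * S) := by
    rintro q a ⟨l, l1, l2⟩ ha
    have := zone_bounds (S := S) (q := q) ha
    exact ⟨l, by omega, by omega⟩
  have hP : P (i + Δ) := by
    by_contra hn
    have hg : ∀ l, l < Δ - 1 → ∃ c, Gone I S (f (i + 1 + l)) (f (i + 1 + l + 1)) c :=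
      fun l hl => hf.gone _ (by omega)
    choose! c hc using hg
    have z0 : ∀ c, c * S / S = c := fun c => Nat.mul_div_cancel c hS0
    let A := ((ends (I (σ i))).image (fun p => p / (L * S))).biUnion
      (fun q => (range L).image (fun a => q * L + a))
    let B := (ends (I (σ (i + Δ)))).image (fun p => p / (L * S) * L)
    have hA : A.card ≤ 2 * k * L := by
      refine Finset.card_biUnion_le.trans ?_
      refine (Finset.sum_le_card_nsmul _ _ L (fun q _ => Finset.card_image_le.trans (by simp))).trans ?_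
      rw [smul_eq_mul]
      exact Nat.mul_le_mul_right L (Finset.card_image_le.trans (card_ends _))
    have hB : B.card ≤ 2 * k := Finset.card_image_le.trans (card_ends _)
    have := Finset.card_le_card_of_injOn (s := range (Δ - 1)) (t := A ∪ B) c (by
      intro l hl
      have hl' : l < Δ - 1 := by simpa using hl
      obtain ⟨g1, g2⟩ := hc l hl' _ (z0 (c l))
      have t1 : σ i ≤ f (i + 1 + l) := (hσ i (by omega)).2.trans (hf.le (by omega) (by omega))
      have t2 : f (i + 1 + l + 1) ≤ σ (i + Δ) :=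
        (hf.le (by omega) (by omega)).trans (hσ (i + Δ) (by omega)).1
      have g1' := h.mono t1 g1
      have g2' : ¬ In (I (σ (i + Δ))) (c l * S) := fun e => g2 (h.mono t2 e)
      have hdec : c l / L * L + c l % L = c l := Nat.div_add_mod' _ _
      have hb := zone_bounds (S := S) (q := c l / L) (Nat.mod_lt (c l) hL0)
      rw [hdec] at hb
      simp only [coe_union, Set.mem_union, mem_coe]
      by_cases hfr : Free S L (I (σ i)) (c l / L)
      · right
        have a0 : c l % L = 0 := by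
          by_contra e
          exact hn ⟨c l / L, c l % L, hfr, by omega, Nat.mod_lt _ hL0, by rw [hdec]; exact g2'⟩
        have a1 : In (I (σ (i + Δ))) ((c l / L * L + 1) * S) := by
          by_contra e
          exact hn ⟨c l / L, 1, hfr, le_rfl, by omega, e⟩
        have hb1 := zone_bounds (S := S) (q := c l / L) (a := 1) (L := L) (by omega)
        obtain ⟨p, hp, p1, p2⟩ := cross a1 g2' hb1.1 (hi := c l / L * (L * S) + L * S)
          (by omega) hb.1 (by omega)
        refine mem_image.2 ⟨p, hp, ?_⟩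
        rw [(div_eq_iff' hLS).2 ⟨p1.le, p2⟩]; omega
      · left
        have : ∃ p ∈ ends (I (σ i)), c l / L * (L * S) < p ∧ p < c l / L * (L * S) + L * S := by
          by_contra e
          exact hfr (clean_cover g1' hb.1 (by omega) e)
        obtain ⟨p, hp, p1, p2⟩ := this
        exact mem_biUnion.2 ⟨c l / L, mem_image.2 ⟨p, hp, (div_eq_iff' hLS).2 ⟨p1.le, p2⟩⟩,
          mem_image.2 ⟨c l % L, mem_range.2 (Nat.mod_lt _ hL0), hdec⟩⟩) (by
      have key : ∀ l l', l < l' → l' < Δ - 1 → c l ≠ c l' := by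
        intro l l' h1 h2 e
        have g1 := (hc l (by omega) _ (z0 (c l))).2
        have g2 := (hc l' h2 _ (z0 (c l'))).1
        rw [← e] at g2
        exact g1 (h.mono (hf.le (by omega) (by omega)) g2)
      intro l hl l' hl' e
      have a : l < Δ - 1 := by simpa using hl
      have b : l' < Δ - 1 := by simpa using hl'
      by_contra hne
      rcases lt_or_gt_of_ne hne with x | x
      · exact key l l' x b e
      · exact key l' l x a e.symm)
    rw [card_range] at this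
    have := Finset.card_union_le A B
    have e : 2 * k * (L + 1) = 2 * k * L + 2 * k := by ring
    omega
  have hex : ∃ n, P (i + n) := ⟨Δ, hP⟩
  have h1 := Nat.find_spec hex
  have h2 : Nat.find hex ≤ Δ := Nat.find_min' hex hP
  have h3 : Nat.find hex ≠ 0 := by
    intro e
    rw [e] at h1
    obtain ⟨q, a, b1, _, b3, b4⟩ := h1
    exact b4 (hfree q a b1 b3)
  obtain ⟨n, hn⟩ : ∃ n, Nat.find hex = n + 1 := ⟨Nat.find hex - 1, by omega⟩
  have h4 : ¬ P (i + n) := Nat.find_min hex (by omega)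
  rw [hn] at h1 h2
  obtain ⟨q, a, b1, b2, b3, b4⟩ := h1
  have hmod : ∀ a, a < L → (q * L + a) % L = a ∧ (q * L + a) / L = q := by
    intro a ha
    constructor
    · rw [mul_comm, Nat.mul_add_mod, Nat.mod_eq_of_lt ha]
    · rw [mul_comm, Nat.mul_add_div hL0, Nat.div_eq_of_lt ha, add_zero]
  have fin : ∀ x, 1 ≤ x → x < L - 1 →
      ¬ (In (I (σ (i + (n + 1)))) ((q * L + x) * S) ↔
        In (I (σ (i + (n + 1)))) ((q * L + (L - 1)) * S)) →
      ∃ i' c, i < i' ∧ i' ≤ i + Δ ∧ 1 ≤ c % L ∧ c % L < L - 1 ∧ c * S < N ∧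
        Sep Λ S L (I (σ i')) c ∧ Free S L (I (σ i)) (c / L) := by
    intro x x1 x2 hx
    obtain ⟨m1, m2⟩ := hmod x (by omega)
    have eH : cH L (q * L + x) = q * L + (L - 1) := by unfold cH; rw [m2]
    refine ⟨i + (n + 1), q * L + x, by omega, by omega, by omega, by omega,
      h.lt (hfree q x b1 (by omega)), h.sep hΛ hS (by omega) ?_ ?_ (by rw [eH]; exact hx),
      by rw [m2]; exact b1⟩
    · exact hcl _ (by omega) _ (by omega)
    · rw [eH]
      exact hcl _ (by omega) _ (by rw [(hmod (L - 1) (by omega)).1]; omega)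
  by_cases hh : In (I (σ (i + (n + 1)))) ((q * L + (L - 1)) * S)
  · have : a ≠ L - 1 := by rintro rfl; exact b4 hh
    exact fin a b2 (by omega) (fun e => b4 (e.2 hh))
  · have : ∃ x, 1 ≤ x ∧ x < L ∧ In (I (σ (i + (n + 1)))) ((q * L + x) * S) := by
      by_contra hcon
      have c1 := Finset.card_le_card_of_injOn (s := Finset.Ico 1 L)
        (t := touched N I S (f (i + n)) (f (i + n + 2))) (fun x => q * L + x) (by
          intro x hx
          have hx' : 1 ≤ x ∧ x < L := by simpa using hx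
          refine h.mem_touched.2 ⟨(q * L + x) * S, Nat.mul_div_cancel _ hS0, ?_, ?_⟩
          · refine h.mono (hσ (i + n) (by omega)).1 ?_
            by_contra e
            exact h4 ⟨q, x, b1, hx'.1, hx'.2, e⟩
          · intro e
            exact hcon ⟨x, hx'.1, hx'.2, h.mono (hσ (i + (n + 1)) (by omega)).2 e⟩)
        (fun x _ y _ e => by simpa using e)
      have c2 := hf.few_le h (i + n) 2 (by omega)
      rw [Nat.card_Ico] at c1
      omega
    obtain ⟨x, x1, x2, x3⟩ := this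
    have : x ≠ L - 1 := by rintro rfl; exact hh x3
    exact fin x x1 (by omega) (fun e => hh (e.1 x3))

lemma Sweep.select_many (h : Sweep N Λ T I) {S L J : ℕ} {f σ : ℕ → ℕ} (hΛ : 0 < Λ) (hS : Λ ≤ S)
    (hL : 16 * k + 1 < L) (hf : Chain N I S J f)
    (hσ : ∀ i < J, f i ≤ σ i ∧ σ i ≤ f (i + 1))
    (hcl : ∀ i < J, ∀ c, c % L ≠ 0 → ¬ Dirty Λ (I (σ i)) (c * S)) (s : ℕ)
    (hs : s * (2 * k * (L + 1) + 2) < J) :
    ∃ (idx x : ℕ → ℕ) (last : ℕ), last ≤ s * (2 * k * (L + 1) + 2) ∧ ∀ i < s, idx i ≤ last ∧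
      1 ≤ x i % L ∧ x i % L < L - 1 ∧ x i * S < N ∧ Sep Λ S L (I (σ (idx i))) (x i) ∧
      ∀ i' < i, ∀ p ∈ ends (I (σ (idx i'))), Out Λ S L (x i) p := by
  induction s with
  | zero => exact ⟨id, id, 0, by simp, by simp⟩
  | succ s ih =>
    rw [add_mul, one_mul] at hs ⊢
    obtain ⟨idx, x, last, l1, l2⟩ := ih (by omega)
    obtain ⟨i', c, a1, a2, a3, a4, a5, a6, a7⟩ := h.select hΛ hS hL hf hσ hcl last (by omega)
    refine ⟨fun i => if i < s then idx i else i', fun i => if i < s then x i else c, i',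
      by omega, fun i hi => ?_⟩
    by_cases e : i < s
    · simp only [e, if_true]
      obtain ⟨b1, b2, b3, b4, b5, b6⟩ := l2 i e
      refine ⟨by omega, b2, b3, b4, b5, fun j hj => ?_⟩
      simp only [show j < s by omega, if_true]
      exact b6 j hj
    · simp only [e, if_false]
      refine ⟨le_rfl, a3, a4, a5, a6, fun j hj p hp => ?_⟩
      simp only [show j < s by omega, if_true] at hp
      have b1 := (l2 j (by omega)).1
      have t1 : σ (idx j) ≤ σ last := by
        rcases b1.eq_or_lt with e' | e'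
        · rw [e']
        · exact (hσ _ (by omega)).2.trans ((hf.le e' (by omega)).trans (hσ _ (by omega)).1)
      obtain ⟨l, c1, c2⟩ := a7
      have hLS : 0 < L * S := Nat.mul_pos (by omega) (by omega)
      obtain ⟨l', d1, d2⟩ := h.ref_le t1 l (by omega)
      have := h.not_inside (d1.trans c1) (c2.trans d2) hp
      have z1 := zone_bounds (S := S) (q := c / L) (Nat.mod_lt c (show 0 < L by omega))
      have z2 := zone_bounds (S := S) (q := c / L) (a := L - 1) (L := L) (by omega)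
      rw [Nat.div_add_mod'] at z1
      unfold Out cH; omega

lemma Sweep.stretch (h : Sweep N Λ T I) {S S' Tw s0 t0 : ℕ} {f : ℕ → ℕ} (_hS : 0 < S')
    (hf : Chain N I S ((8 * k * Λ + 1) * Tw) f) (h0 : s0 ≤ f 0)
    (h1 : f ((8 * k * Λ + 1) * Tw) ≤ t0) (hfew : (touched N I S' s0 t0).card ≤ 8 * k) :
    ∃ u, u * Tw + Tw ≤ (8 * k * Λ + 1) * Tw ∧
      ∀ z, In (I (f (u * Tw))) z → ¬ In (I (f (u * Tw + Tw))) z → ¬ z % S' < Λ := by
  by_contra hcon
  have hb : ∀ u < 8 * k * Λ + 1, u * Tw + Tw ≤ (8 * k * Λ + 1) * Tw := by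
    intro u hu
    calc u * Tw + Tw = (u + 1) * Tw := by ring
      _ ≤ _ := Nat.mul_le_mul_right Tw hu
  have hex : ∀ u < 8 * k * Λ + 1, ∃ z, In (I (f (u * Tw))) z ∧ ¬ In (I (f (u * Tw + Tw))) z ∧
      z % S' < Λ := by
    intro u hu
    by_contra e
    exact hcon ⟨u, hb u hu, fun z a b c => e ⟨z, a, b, c⟩⟩
  choose! z z1 z2 z3 using hex
  have := Finset.card_le_card_of_injOn (s := range (8 * k * Λ + 1))
    (t := (touched N I S' s0 t0).biUnion (fun c => (range Λ).image (fun a => c * S' + a))) z (by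
      intro u hu
      have hu' : u < 8 * k * Λ + 1 := by simpa using hu
      have := hb u hu'
      refine mem_biUnion.2 ⟨z u / S', h.mem_touched.2 ⟨z u, rfl,
        h.mono (h0.trans (hf.le (Nat.zero_le _) (by omega))) (z1 u hu'),
        fun e => z2 u hu' (h.mono ((hf.le this le_rfl).trans h1) e)⟩,
        mem_image.2 ⟨z u % S', mem_range.2 (z3 u hu'), Nat.div_add_mod' _ _⟩⟩) (by
      have key : ∀ u v, u < v → v < 8 * k * Λ + 1 → z u ≠ z v := by
        intro u v huv hv e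
        have a : u * Tw + Tw ≤ v * Tw := by
          calc u * Tw + Tw = (u + 1) * Tw := by ring
            _ ≤ _ := Nat.mul_le_mul_right Tw huv
        have := hb v hv
        exact z2 u (by omega) (h.mono (hf.le a (by omega)) (e ▸ z1 v hv))
      intro u hu v hv e
      have a : u < 8 * k * Λ + 1 := by simpa using hu
      have b : v < 8 * k * Λ + 1 := by simpa using hv
      by_contra hne
      rcases lt_or_gt_of_ne hne with x | x
      · exact key u v x b e
      · exact key v u x a e.symm)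
  rw [card_range] at this
  have b : ((touched N I S' s0 t0).biUnion
      (fun c => (range Λ).image (fun a => c * S' + a))).card ≤ 8 * k * Λ := by
    refine Finset.card_biUnion_le.trans ?_
    refine (Finset.sum_le_card_nsmul _ _ Λ (fun q _ => Finset.card_image_le.trans (by simp))).trans ?_
    rw [smul_eq_mul]
    exact Nat.mul_le_mul_right Λ hfew
  omega

/-- The output of the structure lemma for zones of size `S` inside big zones of size `S'`. -/
def Good (N Λ : ℕ) (I : ℕ → Fin k → ℕ × ℕ) (S S' L Tw s : ℕ) : Prop :=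
  ∃ (a b : ℕ) (τ x : ℕ → ℕ), (touched N I S a b).card ≤ 8 * k * Tw ∧
    (∀ z, In (I a) z → ¬ In (I b) z → ¬ z % S' < Λ) ∧
    ∀ i < s, a ≤ τ i ∧ τ i ≤ b ∧ (∀ c, c % L ≠ 0 → ¬ Dirty Λ (I (τ i)) (c * S)) ∧
      1 ≤ x i % L ∧ x i % L < L - 1 ∧ x i * S < N ∧ Sep Λ S L (I (τ i)) (x i) ∧
      ∀ i' < i, ∀ p ∈ ends (I (τ i')), Out Λ S L (x i) p

lemma Sweep.rounds (h : Sweep N Λ T I) {L m Tw s : ℕ} (hΛ : 0 < Λ) (hL : 16 * k + 1 < L)
    (hL2 : 8 * k * (10 * k) < L) (hT : s * (2 * k * (L + 1) + 2) < Tw)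
    (hm : 8 * k * ((8 * k * Λ + 1) * Tw) < L * m) (j : ℕ) :
    ∀ s0 t0, s0 ≤ t0 → (∃ c, Gone I ((L * L * m) ^ j * Λ) s0 t0 c) →
      (∃ j' < j, Good N Λ I ((L * L * m) ^ j' * Λ * L) ((L * L * m) ^ (j' + 1) * Λ) L Tw s) ∨
      ∃ τ, s0 ≤ τ ∧ τ ≤ t0 ∧ ∃ R : Finset ℕ, R.card = j ∧
        ∀ ρ ∈ R, Dirty Λ (I τ) (ρ * Λ) ∧ ¬ (L * L * m) ^ j ∣ ρ := by
  have hm0 : 0 < L * m := by omega
  have hL0 : 0 < L := by omega
  have hB : 0 < L * L * m := by rw [mul_assoc]; exact Nat.mul_pos hL0 hm0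
  induction j with
  | zero => exact fun s0 t0 hst _ => Or.inr ⟨s0, le_rfl, hst, ∅, rfl, by simp⟩
  | succ j ih =>
    intro s0 t0 hst hc
    have e1 : (L * L * m) ^ (j + 1) * Λ = (L * L * m) ^ j * Λ * L * (L * m) := by ring
    have p1 : Λ ≤ (L * L * m) ^ j * Λ := Nat.le_mul_of_pos_left _ (pow_pos hB j)
    have p2 : Λ ≤ (L * L * m) ^ j * Λ * L := p1.trans (Nat.le_mul_of_pos_right _ hL0)
    have p3 : Λ ≤ (L * L * m) ^ (j + 1) * Λ := Nat.le_mul_of_pos_left _ (pow_pos hB _)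
    obtain ⟨t1, a1, a2, a3, a4⟩ := h.nxt hΛ p3 hc
    obtain ⟨f, f0, fJ, hf⟩ := h.greedy hΛ p2 a1.le (e1 ▸ a3) _ hm
    by_cases hb : ∀ i < (8 * k * Λ + 1) * Tw, ∃ τ, (f i ≤ τ ∧ τ ≤ f (i + 1)) ∧
        ∀ c, c % L ≠ 0 → ¬ Dirty Λ (I τ) (c * ((L * L * m) ^ j * Λ * L))
    · left
      choose! σ hσ hcl using hb
      obtain ⟨u, u1, u2⟩ := h.stretch (S' := (L * L * m) ^ (j + 1) * Λ) (by omega) hf f0.ge fJ a4
      obtain ⟨idx, x, last, l1, l2⟩ := h.select_many hΛ p2 hL (hf.shift (u * Tw) Tw u1)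
        (σ := fun l => σ (u * Tw + l)) (fun i hi => hσ _ (by omega))
        (fun i hi => hcl _ (by omega)) s hT
      refine ⟨j, by omega, f (u * Tw), f (u * Tw + Tw), fun i => σ (u * Tw + idx i), x,
        hf.few_le h _ _ u1, u2, fun i hi => ?_⟩
      obtain ⟨b1, b2, b3, b4, b5, b6⟩ := l2 i hi
      refine ⟨(hf.le (by omega) (by omega)).trans (hσ _ (by omega)).1,
        (hσ _ (by omega)).2.trans (hf.le (by omega) u1), hcl _ (by omega), b2, b3, b4, b5, b6⟩
    · push Not at hb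
      obtain ⟨i, hi, hb⟩ := hb
      obtain ⟨s', t', c, b1, b2, b3, b4, b5, b6⟩ := h.dirty_window hΛ p1 hL2 (hf.lt i hi).le
        (hf.gone i hi) (hf.few i hi) (fun c => c % L ≠ 0) (fun τ x y => hb τ ⟨x, y⟩)
      have c1 : s0 ≤ s' := (f0 ▸ hf.le (Nat.zero_le i) hi.le).trans b1
      have c2 : t' ≤ t0 := b3.trans ((hf.le hi le_rfl).trans (fJ.trans a2))
      rcases ih s' t' b2 b4 with ⟨j', hj', g⟩ | ⟨τ, d1, d2, R, d3, d4⟩
      · exact Or.inl ⟨j', by omega, g⟩
      · right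
        refine ⟨τ, c1.trans d1, d2.trans c2, insert (c * L * (L * L * m) ^ j) R, ?_, ?_⟩
        · rw [Finset.card_insert_of_notMem, d3]
          intro e
          exact (d4 _ e).2 (Dvd.intro_left _ rfl)
        · intro ρ hρ
          rcases mem_insert.1 hρ with rfl | e
          · refine ⟨?_, fun e => b5 ?_⟩
            · have := b6 τ d1 d2
              convert this using 1; ring
            · rw [pow_succ', Nat.mul_dvd_mul_iff_right (pow_pos hB j), mul_assoc,
                mul_comm c, Nat.mul_dvd_mul_iff_left hL0] at e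
              exact Nat.mod_eq_zero_of_dvd ((Dvd.intro _ rfl).trans e)
          · exact ⟨(d4 ρ e).1, fun e' => (d4 ρ e).2 ((pow_dvd_pow _ (by omega)).trans e')⟩

theorem Sweep.good {L m Tw s : ℕ} (h : Sweep ((L * L * m) ^ (2 * k + 1) * Λ) Λ T I) (hΛ : 0 < Λ)
    (hL : 16 * k + 1 < L) (hL2 : 8 * k * (10 * k) < L) (hT : s * (2 * k * (L + 1) + 2) < Tw)
    (hm : 8 * k * ((8 * k * Λ + 1) * Tw) < L * m) :
    ∃ j < 2 * k + 1, Good ((L * L * m) ^ (2 * k + 1) * Λ) Λ I ((L * L * m) ^ j * Λ * L)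
      ((L * L * m) ^ (j + 1) * Λ) L Tw s := by
  have hB : 0 < L * L * m := by rw [mul_assoc]; exact Nat.mul_pos (by omega) (by omega)
  rcases h.rounds hΛ hL hL2 hT hm (2 * k + 1) 0 T (Nat.zero_le _) ⟨0, fun z hz =>
    ⟨h.start z (by
      have := (div_eq_iff' (Nat.mul_pos (pow_pos hB _) hΛ)).1 hz
      omega), h.stop z⟩⟩ with g | ⟨τ, _, _, R, d3, d4⟩
  · exact g
  · have := count_strict hΛ R (ends (I τ)) (fun ρ hρ => (d4 ρ hρ).1)
    have := card_ends (I τ)
    omega

end Pool.Agent.H382Z.EDT
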