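import Mathlib

/-!
# Sweeps of a word by boundedly many shrinking intervals
-/

namespace Pool.Agent.H382Z.EDT

open Finset

/-- The position `z` lies in one of the intervals. -/
def In {k : ℕ} (c : Fin k → ℕ × ℕ) (z : ℕ) : Prop := ∃ i, (c i).1 ≤ z ∧ z < (c i).2

/-- The end points of the intervals. -/
def ends {k : ℕ} (c : Fin k → ℕ × ℕ) : Finset ℕ :=
  univ.image (fun i => (c i).1) ∪ univ.image (fun i => (c i).2)

lemma mem_ends {k : ℕ} (c : Fin k → ℕ × ℕ) (p : ℕ) :
    p ∈ ends c ↔ ∃ i, (c i).1 = p ∨ (c i).2 = p := by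
  simp [ends, exists_or]

lemma fst_mem_ends {k : ℕ} (c : Fin k → ℕ × ℕ) (i : Fin k) : (c i).1 ∈ ends c :=
  (mem_ends _ _).2 ⟨i, Or.inl rfl⟩

lemma snd_mem_ends {k : ℕ} (c : Fin k → ℕ × ℕ) (i : Fin k) : (c i).2 ∈ ends c :=
  (mem_ends _ _).2 ⟨i, Or.inr rfl⟩

lemma card_ends {k : ℕ} (c : Fin k → ℕ × ℕ) : (ends c).card ≤ 2 * k := by
  unfold ends
  refine (Finset.card_union_le _ _).trans ?_
  have a := Finset.card_image_le (s := (univ : Finset (Fin k))) (f := fun i => (c i).1)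
  have b := Finset.card_image_le (s := (univ : Finset (Fin k))) (f := fun i => (c i).2)
  simp only [card_univ, Fintype.card_fin] at a b
  omega

lemma cross {k : ℕ} {c : Fin k → ℕ × ℕ} {y z lo hi : ℕ} (hy : In c y) (hz : ¬ In c z)
    (h1 : lo ≤ y) (h2 : y < hi) (h3 : lo ≤ z) (h4 : z < hi) :
    ∃ p ∈ ends c, lo < p ∧ p < hi := by
  obtain ⟨i, a, b⟩ := hy
  have : ¬ ((c i).1 ≤ z ∧ z < (c i).2) := fun h => hz ⟨i, h⟩
  by_cases h : y < z
  · exact ⟨_, snd_mem_ends c i, by omega, by omega⟩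
  · exact ⟨_, fst_mem_ends c i, by omega, by omega⟩

lemma div_eq_iff' {S z c : ℕ} (hS : 0 < S) : z / S = c ↔ c * S ≤ z ∧ z < c * S + S := by
  rw [Nat.div_eq_iff hS]; omega

lemma count_strict {S : ℕ} (hS : 0 < S) (C E : Finset ℕ)
    (h : ∀ c ∈ C, ∃ p ∈ E, c * S < p ∧ p < c * S + S) : C.card ≤ E.card := by
  refine le_trans (Finset.card_le_card ?_) (Finset.card_image_le (f := fun p => p / S))
  intro c hc
  obtain ⟨p, hp, a, b⟩ := h c hc
  exact mem_image.2 ⟨p, hp, (div_eq_iff' hS).2 ⟨by omega, b⟩⟩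

/-- A sweep of `[0, N)` in which no interval of length `Λ` is removed in one step. -/
structure Sweep {k : ℕ} (N Λ T : ℕ) (I : ℕ → Fin k → ℕ × ℕ) : Prop where
  shape : ∀ t i, (I t i).1 < (I t i).2 ∨ I t i = (0, 0)
  le : ∀ t i, (I t i).2 ≤ N
  disj : ∀ t i i' z, (I t i).1 ≤ z → z < (I t i).2 → (I t i').1 ≤ z → z < (I t i').2 → i = i'
  ref : ∀ t i, (I (t + 1) i).1 < (I (t + 1) i).2 →
    ∃ i', (I t i').1 ≤ (I (t + 1) i).1 ∧ (I (t + 1) i).2 ≤ (I t i').2
  step : ∀ t z, (∀ y, z ≤ y → y < z + Λ → In (I t) y) → ∃ y, z ≤ y ∧ y < z + Λ ∧ In (I (t + 1)) y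
  start : ∀ z < N, In (I 0) z
  stop : ∀ z, ¬ In (I T) z

variable {k N Λ T : ℕ} {I : ℕ → Fin k → ℕ × ℕ}

lemma Sweep.ref_le (h : Sweep N Λ T I) {s t : ℕ} (hst : s ≤ t) (i : Fin k)
    (hi : (I t i).1 < (I t i).2) : ∃ i', (I s i').1 ≤ (I t i).1 ∧ (I t i).2 ≤ (I s i').2 := by
  induction t, hst using Nat.le_induction generalizing i with
  | base => exact ⟨i, le_rfl, le_rfl⟩
  | succ t _ ih =>
    obtain ⟨i', a, b⟩ := h.ref t i hi
    obtain ⟨i'', c, d⟩ := ih i' (by omega)
    exact ⟨i'', by omega, by omega⟩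

lemma Sweep.mono (h : Sweep N Λ T I) {s t z : ℕ} (hst : s ≤ t) (hz : In (I t) z) : In (I s) z := by
  obtain ⟨i, a, b⟩ := hz
  obtain ⟨i', c, d⟩ := h.ref_le hst i (by omega)
  exact ⟨i', by omega, by omega⟩

lemma Sweep.lt (h : Sweep N Λ T I) {t z : ℕ} (hz : In (I t) z) : z < N := by
  obtain ⟨i, _, b⟩ := hz
  exact b.trans_le (h.le t i)

open Classical in
/-- Zones of size `S` that lose a position between the times `s` and `t`. -/
noncomputable def touched (N : ℕ) (I : ℕ → Fin k → ℕ × ℕ) (S s t : ℕ) : Finset ℕ :=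
  (range N).filter (fun c => ∃ z, z / S = c ∧ In (I s) z ∧ ¬ In (I t) z)

lemma Sweep.mem_touched (h : Sweep N Λ T I) {S s t c : ℕ} :
    c ∈ touched N I S s t ↔ ∃ z, z / S = c ∧ In (I s) z ∧ ¬ In (I t) z := by
  simp only [touched, mem_filter, mem_range, and_iff_right_iff_imp]
  rintro ⟨z, rfl, a, _⟩
  exact (Nat.div_le_self _ _).trans_lt (h.lt a)

/-- The zone `c` of size `S` is removed between the times `s` and `t`. -/
def Gone (I : ℕ → Fin k → ℕ × ℕ) (S s t c : ℕ) : Prop :=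
  ∀ z, z / S = c → In (I s) z ∧ ¬ In (I t) z

lemma Sweep.touched_le (h : Sweep N Λ T I) {S s t : ℕ} (hS : 0 < S)
    (hc : ¬ ∃ c, Gone I S s t c) : (touched N I S s t).card ≤ 4 * k := by
  have := count_strict hS (touched N I S s t) (ends (I s) ∪ ends (I t)) (by
    intro c hc'
    obtain ⟨z, hz, a, b⟩ := h.mem_touched.1 hc'
    have : ¬ Gone I S s t c := fun g => hc ⟨c, g⟩
    simp only [Gone, not_forall] at this
    obtain ⟨y, hy, hn⟩ := this
    rw [div_eq_iff' hS] at hz hy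
    by_cases h1 : In (I s) y
    · have h2 : In (I t) y := by
        by_contra h2; exact hn ⟨h1, h2⟩
      obtain ⟨p, hp, e⟩ := cross h2 b hy.1 hy.2 hz.1 hz.2
      exact ⟨p, mem_union_right _ hp, e⟩
    · obtain ⟨p, hp, e⟩ := cross a h1 hz.1 hz.2 hy.1 hy.2
      exact ⟨p, mem_union_left _ hp, e⟩)
  have a := Finset.card_union_le (ends (I s)) (ends (I t))
  have b := card_ends (I s)
  have c := card_ends (I t)
  omega

lemma Sweep.touched_sub (h : Sweep N Λ T I) (S s t u : ℕ) :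
    touched N I S s u ⊆ touched N I S s t ∪ touched N I S t u := by
  intro c hc
  obtain ⟨z, hz, a, b⟩ := h.mem_touched.1 hc
  by_cases h1 : In (I t) z
  · exact mem_union_right _ (h.mem_touched.2 ⟨z, hz, h1, b⟩)
  · exact mem_union_left _ (h.mem_touched.2 ⟨z, hz, a, h1⟩)

lemma Sweep.touched_mono (h : Sweep N Λ T I) {S s s' t t' : ℕ} (hs : s ≤ s') (ht : t' ≤ t) :
    touched N I S s' t' ⊆ touched N I S s t := by
  intro c hc
  obtain ⟨z, hz, a, b⟩ := h.mem_touched.1 hc
  exact h.mem_touched.2 ⟨z, hz, h.mono hs a, fun e => b (h.mono ht e)⟩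

lemma Sweep.nxt (h : Sweep N Λ T I) {S s t : ℕ} (hΛ : 0 < Λ) (hS : Λ ≤ S)
    (hc : ∃ c, Gone I S s t c) :
    ∃ t', s < t' ∧ t' ≤ t ∧ (∃ c, Gone I S s t' c) ∧ (touched N I S s t').card ≤ 8 * k := by
  classical
  have hS0 : 0 < S := by omega
  have hex : ∃ t, ∃ c, Gone I S s t c := ⟨t, hc⟩
  have h1 := Nat.find_spec hex
  have h2 : s < Nat.find hex := by
    by_contra hle
    obtain ⟨c, hc⟩ := h1
    have := hc (c * S) ((div_eq_iff' hS0).2 ⟨le_rfl, by omega⟩)
    exact this.2 (h.mono (by omega) this.1)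
  obtain ⟨t', ht'⟩ : ∃ t', Nat.find hex = t' + 1 := ⟨Nat.find hex - 1, by omega⟩
  refine ⟨Nat.find hex, h2, Nat.find_min' hex hc, h1, ?_⟩
  have a := h.touched_le hS0 (Nat.find_min hex (m := t') (by omega))
  have b := h.touched_le (S := S) (s := t') (t := t' + 1) hS0 (by
    rintro ⟨c, hc⟩
    obtain ⟨y, y1, y2, y3⟩ := h.step t' (c * S) (fun y y1 y2 =>
      (hc y ((div_eq_iff' hS0).2 ⟨y1, by omega⟩)).1)
    exact (hc y ((div_eq_iff' hS0).2 ⟨y1, by omega⟩)).2 y3)
  have c := (Finset.card_le_card (h.touched_sub S s t' (t' + 1))).trans (Finset.card_union_le _ _)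
  rw [ht']; omega

/-- A chain of `J` consecutive time windows in each of which a zone of size `S` is removed and few
zones are touched. -/
structure Chain (N : ℕ) (I : ℕ → Fin k → ℕ × ℕ) (S J : ℕ) (f : ℕ → ℕ) : Prop where
  lt : ∀ i < J, f i < f (i + 1)
  gone : ∀ i < J, ∃ c, Gone I S (f i) (f (i + 1)) c
  few : ∀ i < J, (touched N I S (f i) (f (i + 1))).card ≤ 8 * k

lemma Chain.le {S J : ℕ} {f : ℕ → ℕ} (hf : Chain N I S J f) {i j : ℕ} (hij : i ≤ j)
    (hj : j ≤ J) : f i ≤ f j := by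
  induction j, hij using Nat.le_induction with
  | base => exact le_rfl
  | succ j _ ih => exact (ih (by omega)).trans (hf.lt j (by omega)).le

lemma Chain.few_le (h : Sweep N Λ T I) {S J : ℕ} {f : ℕ → ℕ} (hf : Chain N I S J f) (i n : ℕ)
    (hj : i + n ≤ J) : (touched N I S (f i) (f (i + n))).card ≤ 8 * k * n := by
  induction n with
  | zero =>
    simp only [add_zero, mul_zero, nonpos_iff_eq_zero, card_eq_zero]
    refine Finset.eq_empty_of_forall_notMem fun c hc => ?_
    obtain ⟨z, _, a, b⟩ := h.mem_touched.1 hc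
    exact b a
  | succ n ih =>
    have a := (Finset.card_le_card (h.touched_sub S (f i) (f (i + n)) (f (i + n + 1)))).trans
      (Finset.card_union_le _ _)
    have b := hf.few (i + n) (by omega)
    have c := ih (by omega)
    rw [← add_assoc, mul_add]; omega

lemma Chain.shift {S J : ℕ} {f : ℕ → ℕ} (hf : Chain N I S J f) (i n : ℕ) (hj : i + n ≤ J) :
    Chain N I S n (fun l => f (i + l)) where
  lt := fun l hl => hf.lt (i + l) (by omega)
  gone := fun l hl => hf.gone (i + l) (by omega)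
  few := fun l hl => hf.few (i + l) (by omega)

lemma Sweep.greedy (h : Sweep N Λ T I) {S n s t : ℕ} (hΛ : 0 < Λ) (hS : Λ ≤ S) (hst : s ≤ t)
    (hc : ∃ c, Gone I (S * n) s t c) (J : ℕ) (hJ : 8 * k * J < n) :
    ∃ f : ℕ → ℕ, f 0 = s ∧ f J ≤ t ∧ Chain N I S J f := by
  have hS0 : 0 < S := by omega
  induction J with
  | zero => exact ⟨fun _ => s, rfl, hst, ⟨by simp, by simp, by simp⟩⟩
  | succ J ih =>
    obtain ⟨f, f0, fJ, hf⟩ := ih (by nlinarith)
    obtain ⟨c, hc⟩ := hc
    have a := hf.few_le h 0 J (by omega)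
    rw [zero_add, f0] at a
    have hex : ∃ i ∈ range n, c * n + i ∉ touched N I S s (f J) := by
      by_contra hcon
      push Not at hcon
      have := Finset.card_le_card_of_injOn (s := range n) (t := touched N I S s (f J))
        (fun i => c * n + i) (fun i hi => hcon i hi) (fun i _ j _ e => by simpa using e)
      rw [card_range] at this
      nlinarith
    obtain ⟨i, hi, hi'⟩ := hex
    have hg : Gone I S (f J) t (c * n + i) := by
      intro z hz
      have hz' : z / (S * n) = c := by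
        rw [← Nat.div_div_eq_div_mul, hz, mul_comm, Nat.mul_add_div (by
          have := mem_range.1 hi; omega), Nat.div_eq_of_lt (mem_range.1 hi), add_zero]
      refine ⟨?_, (hc z hz').2⟩
      by_contra hn
      exact hi' (h.mem_touched.2 ⟨z, hz, (hc z hz').1, hn⟩)
    obtain ⟨t', t1, t2, t3, t4⟩ := h.nxt hΛ hS ⟨_, hg⟩
    refine ⟨fun l => if l ≤ J then f l else t', by simp [f0], by simpa using t2, ?_, ?_, ?_⟩
    · intro l hl
      by_cases e : l = J
      · subst e; simpa using t1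
      · simp only [show l ≤ J by omega, show l + 1 ≤ J by omega, if_true]
        exact hf.lt l (by omega)
    · intro l hl
      by_cases e : l = J
      · subst e; simpa using t3
      · simp only [show l ≤ J by omega, show l + 1 ≤ J by omega, if_true]
        exact hf.gone l (by omega)
    · intro l hl
      by_cases e : l = J
      · subst e; simpa using t4
      · simp only [show l ≤ J by omega, show l + 1 ≤ J by omega, if_true]
        exact hf.few l (by omega)

/-- An end point lies strictly inside the run starting at `a`. -/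
def Dirty (Λ : ℕ) (c : Fin k → ℕ × ℕ) (a : ℕ) : Prop := ∃ p ∈ ends c, a < p ∧ p < a + Λ

lemma Sweep.not_inside (h : Sweep N Λ T I) {t lo hi p : ℕ} {i : Fin k} (h1 : (I t i).1 ≤ lo)
    (h2 : hi ≤ (I t i).2) (hp : p ∈ ends (I t)) : p ≤ lo ∨ hi ≤ p := by
  by_contra hcon
  obtain ⟨l, hl⟩ := (mem_ends _ _).1 hp
  have hs := h.shape t l
  rcases hl with hl | hl
  · have hs' : (I t l).1 < (I t l).2 := by
      rcases hs with e | e
      · exact e
      · rw [e] at hl; simp only at hl; omega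
    have := h.disj t l i p (by omega) (by omega) (by omega) (by omega)
    subst this; omega
  · have hs' : (I t l).1 < (I t l).2 := by
      rcases hs with e | e
      · exact e
      · rw [e] at hl; simp only at hl; omega
    have := h.disj t l i (p - 1) (by omega) (by omega) (by omega) (by omega)
    subst this; omega

lemma clean_cover {c : Fin k → ℕ × ℕ} {lo hi z : ℕ} (hz : In c z) (h1 : lo ≤ z) (h2 : z < hi)
    (hn : ¬ ∃ p ∈ ends c, lo < p ∧ p < hi) : ∃ i, (c i).1 ≤ lo ∧ hi ≤ (c i).2 := by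
  obtain ⟨i, a, b⟩ := hz
  refine ⟨i, ?_, ?_⟩
  · by_contra e; exact hn ⟨_, fst_mem_ends c i, by omega, by omega⟩
  · by_contra e; exact hn ⟨_, snd_mem_ends c i, by omega, by omega⟩

lemma Sweep.dirty_persist (h : Sweep N Λ T I) {s t a z : ℕ} (hst : s ≤ t) (hd : Dirty Λ (I s) a)
    (hz : In (I t) z) (h1 : a ≤ z) (h2 : z < a + Λ) : Dirty Λ (I t) a := by
  by_contra hn
  obtain ⟨i, b, c⟩ := clean_cover hz h1 h2 hn
  obtain ⟨i', d, e⟩ := h.ref_le hst i (by omega)
  obtain ⟨p, hp, p1, p2⟩ := hd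
  have := h.not_inside (lo := a) (hi := a + Λ) (i := i') (by omega) (by omega) hp
  omega

lemma Sweep.dirty_in (h : Sweep N Λ T I) {t a : ℕ} (hd : Dirty Λ (I t) a) :
    ∃ z, In (I t) z ∧ a ≤ z ∧ z < a + Λ := by
  obtain ⟨p, hp, p1, p2⟩ := hd
  obtain ⟨l, hl⟩ := (mem_ends _ _).1 hp
  have hs' : (I t l).1 < (I t l).2 := by
    rcases h.shape t l with e | e
    · exact e
    · rw [e] at hl; simp only at hl; omega
  rcases hl with hl | hl
  · exact ⟨p, ⟨l, by omega, by omega⟩, by omega, by omega⟩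
  · exact ⟨p - 1, ⟨l, by omega, by omega⟩, by omega, by omega⟩

lemma Sweep.dirty_convex (h : Sweep N Λ T I) {s t u a : ℕ} (hst : s ≤ t) (htu : t ≤ u)
    (h1 : Dirty Λ (I s) a) (h2 : Dirty Λ (I u) a) : Dirty Λ (I t) a := by
  obtain ⟨z, a1, a2, a3⟩ := h.dirty_in h2
  exact h.dirty_persist hst h1 (h.mono htu a1) a2 a3

/-- If at all times of a window some run of a given kind is dirty, one of them is dirty on a whole
subwindow in which a smaller zone is removed. -/
lemma Sweep.dirty_window (h : Sweep N Λ T I) {S n s t : ℕ} (hΛ : 0 < Λ) (hS : Λ ≤ S)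
    (hn : 8 * k * (10 * k) < n) (hst : s ≤ t) (hc : ∃ c, Gone I (S * n) s t c)
    (hfew : (touched N I (S * n) s t).card ≤ 8 * k) (P : ℕ → Prop)
    (hd : ∀ τ, s ≤ τ → τ ≤ t → ∃ c, P c ∧ Dirty Λ (I τ) (c * (S * n))) :
    ∃ s' t' c, s ≤ s' ∧ s' ≤ t' ∧ t' ≤ t ∧ (∃ c', Gone I S s' t' c') ∧ P c ∧
      ∀ τ, s' ≤ τ → τ ≤ t' → Dirty Λ (I τ) (c * (S * n)) := by
  classical
  obtain ⟨f, f0, fJ, hf⟩ := h.greedy hΛ hS hst hc (10 * k) hn
  have hSn : Λ ≤ S * n := hS.trans (Nat.le_mul_of_pos_right _ (by omega))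
  have hex : ∀ i, i ≤ 10 * k → ∃ c, P c ∧ Dirty Λ (I (f i)) (c * (S * n)) := fun i hi =>
    hd (f i) (f0 ▸ hf.le (Nat.zero_le i) hi) ((hf.le hi le_rfl).trans fJ)
  choose! c hc1 hc2 using hex
  let R := touched N I (S * n) s t ∪
    (range N).filter (fun c => Dirty Λ (I t) (c * (S * n)))
  have hR : R.card ≤ 10 * k := by
    have a := count_strict (S := S * n) (by omega)
      ((range N).filter (fun c => Dirty Λ (I t) (c * (S * n)))) (ends (I t)) (by
        intro c hc
        obtain ⟨p, hp, p1, p2⟩ := (mem_filter.1 hc).2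
        exact ⟨p, hp, p1, by omega⟩)
    have b := card_ends (I t)
    have := Finset.card_union_le (touched N I (S * n) s t)
      ((range N).filter (fun c => Dirty Λ (I t) (c * (S * n))))
    simp only [R]; omega
  obtain ⟨i, hi, j, hj, hij, e⟩ := Finset.exists_ne_map_eq_of_card_lt_of_maps_to
    (s := range (10 * k + 1)) (t := R) (by rw [card_range]; omega) (f := c) (by
      intro i hi
      have hi' : i ≤ 10 * k := by have := mem_range.1 hi; omega
      obtain ⟨z, z1, z2, z3⟩ := h.dirty_in (hc2 i hi')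
      have zd : z / (S * n) = c i := (div_eq_iff' (by omega)).2 ⟨z2, by omega⟩
      have hs : s ≤ f i := f0 ▸ hf.le (Nat.zero_le i) hi'
      have ht : f i ≤ t := (hf.le hi' le_rfl).trans fJ
      by_cases hz : In (I t) z
      · refine mem_union_right _ (mem_filter.2 ⟨mem_range.2 ?_,
          h.dirty_persist ht (hc2 i hi') hz z2 z3⟩)
        rw [← zd]; exact (Nat.div_le_self _ _).trans_lt (h.lt z1)
      · exact mem_union_left _ (h.mem_touched.2 ⟨z, zd, h.mono hs z1, hz⟩))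
  have key : ∀ i j, i < j → j ≤ 10 * k → c i = c j →
      ∃ s' t' c, s ≤ s' ∧ s' ≤ t' ∧ t' ≤ t ∧ (∃ c', Gone I S s' t' c') ∧ P c ∧
        ∀ τ, s' ≤ τ → τ ≤ t' → Dirty Λ (I τ) (c * (S * n)) := by
    intro i j hij hj e
    refine ⟨f i, f (i + 1), c i, f0 ▸ hf.le (Nat.zero_le i) (by omega), (hf.lt i (by omega)).le,
      (hf.le (by omega) le_rfl).trans fJ, hf.gone i (by omega), hc1 i (by omega), ?_⟩
    intro τ a b
    exact h.dirty_convex a (b.trans (hf.le (by omega) hj)) (hc2 i (by omega)) (e ▸ hc2 j hj)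
  have hi' := mem_range.1 hi
  have hj' := mem_range.1 hj
  rcases lt_or_gt_of_ne hij with l | l
  · exact key i j l (by omega) e
  · exact key j i l (by omega) e.symm

end Pool.Agent.H382Z.EDT
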