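import Pool.Agent.H382Z.EDT.Label

/-!
# From derivations to sweeps with equations
-/

set_option linter.unusedSectionVars false

namespace Pool.Agent.H382Z.EDT

open Finset

section lists

variable {A : Type}

lemma prefix_drop {V f₁ g f₂ : List A} {p : ℕ} (h : f₁ ++ g ++ f₂ <+: V.drop p) :
    g <+: V.drop (p + f₁.length) := by
  obtain ⟨r, hr⟩ := h
  rw [← List.drop_drop, ← hr]
  exact ⟨f₂ ++ r, by simp⟩

lemma occ_prefix {V l r : List A} {a : A} {ρ : A → List A} {p : ℕ}
    (h : (l ++ a :: r).flatMap ρ <+: V.drop p) : ρ a <+: V.drop (p + (l.flatMap ρ).length) := by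
  refine prefix_drop (f₂ := r.flatMap ρ) ?_
  simpa using h

lemma locate (u : List A) (ρ : A → List A) {y : ℕ} (hy : y < (u.flatMap ρ).length) :
    ∃ l a r, u = l ++ a :: r ∧ (l.flatMap ρ).length ≤ y ∧
      y < (l.flatMap ρ).length + (ρ a).length := by
  induction u generalizing y with
  | nil => simp at hy
  | cons a u ih =>
    rw [List.flatMap_cons, List.length_append] at hy
    by_cases c : y < (ρ a).length
    · exact ⟨[], a, u, rfl, by simp, by simpa using c⟩
    · obtain ⟨l, b, r, e, h1, h2⟩ := ih (y := y - (ρ a).length) (by omega)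
      refine ⟨a :: l, b, r, by rw [e]; rfl, ?_, ?_⟩ <;>
        rw [List.flatMap_cons, List.length_append] <;> omega

lemma foldl_flat {J : Type} (σ : J → A → List A) (js : List J) (u : List A) :
    js.foldl (fun u j => u.flatMap (σ j)) u =
      u.flatMap (fun a => js.foldl (fun u j => u.flatMap (σ j)) [a]) := by
  induction js generalizing u with
  | nil => simp
  | cons j js ih =>
    simp only [List.foldl_cons]
    rw [ih, List.flatMap_assoc]
    congr 1
    funext a
    rw [ih (List.flatMap (σ j) [a])]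
    simp

end lists

variable {k : ℕ}

theorem stages {V : List (Fin k)} {U : ℕ → List (Fin k)} {R τ : ℕ → Fin k → List (Fin k)}
    {a0 : Fin k} {C ℓ Λ T : ℕ} (s1 : ∀ t, U (t + 1) = (U t).flatMap (τ t))
    (s2 : ∀ t a, R t a = (τ t a).flatMap (R (t + 1))) (s3 : ∀ t a, (τ t a).length ≤ C)
    (s4 : U 0 = [a0]) (s5 : R 0 a0 = V) (s6 : ∀ a, (R T a).length < ℓ) (hl : 0 < ℓ)
    (hN : ℓ ≤ V.length) (hΛ : k * C * ℓ < Λ)
    (nr : ∀ i i' f, ℓ ≤ f.length → f <+: V.drop i → f <+: V.drop i' → i = i') :
    ∃ I, Sweep V.length Λ T I ∧ ∀ t, (U t).flatMap (R t) = V ∧ ∀ a,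
      (I t a = (0, 0) ∧ (a ∈ U t → (R t a).length < ℓ)) ∨
      ((U t).count a = 1 ∧ R t a <+: V.drop (I t a).1 ∧
        (I t a).2 = (I t a).1 + (R t a).length) := by
  classical
  have hV : ∀ t, (U t).flatMap (R t) = V := by
    intro t
    induction t with
    | zero => simp [s4, s5]
    | succ t ih => rw [s1, List.flatMap_assoc, ← ih]; congr 1; funext a; rw [s2 t a]
  have occ : ∀ t l a r, U t = l ++ a :: r → R t a <+: V.drop (l.flatMap (R t)).length := by
    intro t l a r e
    have := occ_prefix (V := V) (l := l) (r := r) (a := a) (ρ := R t) (p := 0)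
      (by rw [← e, hV]; simp)
    simpa using this
  have ex : ∀ t a, ∃ q : ℕ × ℕ, (¬ (a ∈ U t ∧ ℓ ≤ (R t a).length) → q = (0, 0)) ∧
      (a ∈ U t → ℓ ≤ (R t a).length → R t a <+: V.drop q.1 ∧ q.2 = q.1 + (R t a).length) := by
    intro t a
    by_cases c : a ∈ U t ∧ ℓ ≤ (R t a).length
    · obtain ⟨l, r, e⟩ := List.append_of_mem c.1
      exact ⟨((l.flatMap (R t)).length, (l.flatMap (R t)).length + (R t a).length),
        fun h => absurd c h, fun _ _ => ⟨occ t l a r e, rfl⟩⟩
    · exact ⟨(0, 0), fun _ => rfl, fun h1 h2 => absurd ⟨h1, h2⟩ c⟩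
  choose I I0 I1 using ex
  have Iu : ∀ t a p, a ∈ U t → ℓ ≤ (R t a).length → R t a <+: V.drop p →
      (I t a).1 = p ∧ (I t a).2 = p + (R t a).length := by
    intro t a p h1 h2 h3
    obtain ⟨b1, b2⟩ := I1 t a h1 h2
    have := nr _ _ _ h2 b1 h3
    omega
  have long : ∀ t a z, (I t a).1 ≤ z → z < (I t a).2 → a ∈ U t ∧ ℓ ≤ (R t a).length := by
    intro t a z h1 h2
    by_contra c
    rw [I0 t a c] at h2
    simp at h2
  have sepa : ∀ t l a r a', U t = l ++ a :: r → a' ∈ l ++ r → ℓ ≤ (R t a).length →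
      ℓ ≤ (R t a').length → (I t a').2 ≤ (I t a).1 ∨ (I t a).2 ≤ (I t a').1 := by
    intro t l a r a' e h1 h2 h3
    have b1 := Iu t a _ (by rw [e]; simp) h2 (occ t l a r e)
    rcases List.mem_append.1 h1 with c | c
    · obtain ⟨l1, l2, rfl⟩ := List.append_of_mem c
      have b2 := Iu t a' _ (by rw [e]; simp) h3 (occ t l1 a' (l2 ++ a :: r) (by rw [e]; simp))
      simp only [List.flatMap_append, List.flatMap_cons, List.length_append] at b1
      omega
    · obtain ⟨l1, l2, rfl⟩ := List.append_of_mem c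
      have b2 := Iu t a' _ (by rw [e]; simp) h3 (occ t (l ++ a :: l1) a' l2 (by rw [e]; simp))
      simp only [List.flatMap_append, List.flatMap_cons, List.length_append] at b2
      omega
  have child : ∀ t a l a' r, a ∈ U t → ℓ ≤ (R t a).length → τ t a = l ++ a' :: r →
      a' ∈ U (t + 1) ∧ R (t + 1) a' <+: V.drop ((I t a).1 + (l.flatMap (R (t + 1))).length) := by
    intro t a l a' r h1 h2 e
    refine ⟨?_, occ_prefix (r := r) ?_⟩
    · rw [s1, List.mem_flatMap]; exact ⟨a, h1, by rw [e]; simp⟩
    · rw [← e, ← s2]; exact (I1 t a h1 h2).1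
  refine ⟨I, ⟨fun t a => ?_, fun t a => ?_, fun t a a' z h1 h2 h3 h4 => ?_, fun t a' h => ?_,
    fun t z h => ?_, fun z hz => ?_, fun z ⟨a, h1, h2⟩ => ?_⟩, fun t => ⟨hV t, fun a => ?_⟩⟩
  · by_cases c : a ∈ U t ∧ ℓ ≤ (R t a).length
    · have := (I1 t a c.1 c.2).2
      omega
    · exact Or.inr (I0 t a c)
  · by_cases c : a ∈ U t ∧ ℓ ≤ (R t a).length
    · have := I1 t a c.1 c.2
      have b := this.1.length_le
      rw [List.length_drop] at b
      omega
    · rw [I0 t a c]; simp
  · by_contra c
    obtain ⟨b1, b2⟩ := long t a z h1 h2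
    obtain ⟨b3, b4⟩ := long t a' z h3 h4
    obtain ⟨l, r, e⟩ := List.append_of_mem b1
    have : a' ∈ l ++ r := by
      rw [e] at b3
      simp only [List.mem_append, List.mem_cons] at b3 ⊢
      tauto
    have := sepa t l a r a' e this b2 b4
    omega
  · obtain ⟨b1, b2⟩ := long _ a' _ le_rfl h
    rw [s1, List.mem_flatMap] at b1
    obtain ⟨a, c1, c2⟩ := b1
    obtain ⟨l, r, e⟩ := List.append_of_mem c2
    have len : (R t a).length = (l.flatMap (R (t + 1))).length + (R (t + 1) a').length +
        (r.flatMap (R (t + 1))).length := by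
      rw [s2, e]; simp only [List.flatMap_append, List.flatMap_cons, List.length_append]; omega
    obtain ⟨d1, d2⟩ := child t a l a' r c1 (by omega) e
    have := Iu _ a' _ d1 b2 d2
    have := (I1 t a c1 (by omega)).2
    exact ⟨a, by omega, by omega⟩
  · by_contra c
    have sub : Finset.Ico z (z + Λ) ⊆ (univ ×ˢ range C ×ˢ range ℓ).image
        (fun q : Fin k × ℕ × ℕ => (I t q.1).1 +
          (((τ t q.1).take q.2.1).flatMap (R (t + 1))).length + q.2.2) := by
      intro y hy
      rw [Finset.mem_Ico] at hy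
      obtain ⟨a, h1, h2⟩ := h y hy.1 hy.2
      obtain ⟨b1, b2⟩ := long t a y h1 h2
      have b3 := (I1 t a b1 b2).2
      obtain ⟨l, a', r, e, c1, c2⟩ := locate (τ t a) (R (t + 1)) (y := y - (I t a).1)
        (by rw [← s2]; omega)
      obtain ⟨d1, d2⟩ := child t a l a' r b1 b2 e
      have sh : (R (t + 1) a').length < ℓ := by
        by_contra c3
        have := Iu _ a' _ d1 (by omega) d2
        exact c ⟨y, hy.1, hy.2, a', by omega, by omega⟩
      have hC := s3 t a
      rw [e, List.length_append, List.length_cons] at hC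
      refine mem_image.2 ⟨(a, l.length, y - (I t a).1 - (l.flatMap (R (t + 1))).length), ?_, ?_⟩
      · simp only [mem_product, mem_univ, mem_range, true_and]; omega
      · simp only [e, List.take_left']; omega
    have := (card_le_card sub).trans card_image_le
    simp only [Nat.card_Ico, card_product, card_univ, Fintype.card_fin, card_range] at this
    rw [← mul_assoc] at this
    omega
  · have := Iu 0 a0 0 (by simp [s4]) (by rw [s5]; exact hN) (by rw [s5]; simp)
    rw [s5] at this
    exact ⟨a0, by omega, by omega⟩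
  · have := (long T a z h1 h2).2
    have := s6 a
    omega
  · by_cases c : a ∈ U t ∧ ℓ ≤ (R t a).length
    · refine Or.inr ⟨?_, I1 t a c.1 c.2⟩
      obtain ⟨l, r, e⟩ := List.append_of_mem c.1
      have : a ∉ l ++ r := by
        intro c2
        have := sepa t l a r a e c2 c.2 c.2
        have := (I1 t a c.1 c.2).2
        omega
      rw [List.mem_append, not_or] at this
      rw [e, List.count_append, List.count_cons_self, List.count_eq_zero_of_not_mem this.1,
        List.count_eq_zero_of_not_mem this.2]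
    · exact Or.inl ⟨I0 t a c, fun h => not_le.1 fun h2 => c ⟨h, h2⟩⟩

variable {G : Type} [Group G] [DecidableEq G] {S : Finset G}

/-- The equation attached to a configuration. -/
def Eqn (S : Finset G) (𝒰 : Finset (List (Fin k))) (M : ℕ) (π : ℕ → G)
    (cfg : Fin k → ℕ × ℕ) : Prop :=
  ∃ u ∈ 𝒰, ∃ c : Fin k → G, (∀ a, c a ∈ ball S M) ∧
    (∀ a, (cfg a).1 ≠ (cfg a).2 → u.count a = 1) ∧
    (u.map fun a => c a * ((π (cfg a).1)⁻¹ * π (cfg a).2)).prod = 1

lemma prod_flat {A : Type} (u : List A) (ρ : A → List A) (κ : A → G) :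
    ((u.flatMap ρ).map κ).prod = (u.map fun a => ((ρ a).map κ).prod).prod := by
  induction u with
  | nil => rfl
  | cons a u ih => simp only [List.flatMap_cons, List.map_append, List.prod_append, ih,
      List.map_cons, List.prod_cons]

lemma pre_take (W : ℕ → G) {N p : ℕ} (hp : p ≤ N) :
    (((List.range N).map W).take p).prod = pre W p := by
  rw [← List.map_take, List.take_range, min_eq_left hp, pre_eq]

lemma pre_factor {W : ℕ → G} {N p : ℕ} {f : List G} (hf : f <+: ((List.range N).map W).drop p)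
    (hp : p ≤ N) : f.prod = (pre W p)⁻¹ * pre W (p + f.length) := by
  have b := hf.length_le
  simp only [List.length_drop, List.length_map, List.length_range] at b
  rw [← pre_take W (show p + f.length ≤ N by omega), List.take_add, List.prod_append,
    pre_take W hp, ← List.prefix_iff_eq_take.1 hf]
  simp

theorem system (hk : 0 < k) {J : Type} [Fintype J] (ι : G → Fin k) (ω : List (Fin k))
    (σ : J → Fin k → List (Fin k)) (hι : Set.InjOn ι S)
    (hw : ∀ w : List G, (∀ s ∈ w, s ∈ S) → (w.prod = 1 ↔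
      ∃ js : List J, js.foldl (fun u j => u.flatMap (σ j)) ω = w.map ι)) :
    ∃ (C : ℕ) (𝒰 : Finset (List (Fin k))), ∀ (W : ℕ → G) (N ℓ Λ : ℕ), (∀ t, W t ∈ S) →
      pre W N = 1 → (∀ i i', i + ℓ ≤ N → i' + ℓ ≤ N → (∀ u < ℓ, W (i + u) = W (i' + u)) → i = i') →
      2 ≤ ℓ → ℓ ≤ N → k * C * ℓ < Λ →
      ∃ T I, Sweep N Λ T I ∧ ∀ t, Eqn S 𝒰 ℓ (pre W) (I t) := by
  classical
  let a0 : Fin k := ⟨0, hk⟩
  let typ : List (Fin k) → Fin k → Prop × Prop := fun u a => (a ∈ u, u.count a = 1)
  let run : List J → List (Fin k) → List (Fin k) :=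
    fun js u => js.foldl (fun u j => u.flatMap (σ j)) u
  have hrep : ∀ f : Fin k → Prop × Prop, ∃ js : List J,
      (∃ js', typ (run js' ω) = f) → typ (run js ω) = f := by
    intro f
    by_cases c : ∃ js', typ (run js' ω) = f
    · exact ⟨c.choose, fun _ => c.choose_spec⟩
    · exact ⟨[], fun h => absurd h c⟩
  choose rep hrep using hrep
  let C := ω.length + 1 + ∑ j, ∑ a, (σ j a).length
  refine ⟨C, insert [a0] (univ.image fun f => run (rep f) ω), ?_⟩
  intro W N ℓ Λ hW h1 nr hl hN hΛ
  let w := (List.range N).map W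
  have wS : ∀ s ∈ w, s ∈ S := by
    intro s hs
    obtain ⟨t, _, rfl⟩ := List.mem_map.1 hs
    exact hW t
  obtain ⟨js, hjs⟩ := (hw w wS).1 (by rw [pre_eq, h1])
  let κ : Fin k → G := Function.invFunOn ι S
  have hκ : ∀ s ∈ S, κ (ι s) = s := fun s hs => hι.leftInvOn_invFunOn hs
  have wκ : (w.map ι).map κ = w := by
    rw [List.map_map]
    conv_rhs => rw [← List.map_id w]
    exact List.map_congr_left fun s hs => hκ s (wS s hs)
  let U : ℕ → List (Fin k) := fun t => Nat.casesOn t [a0] fun t => run (js.take t) ω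
  let R : ℕ → Fin k → List (Fin k) := fun t a =>
    Nat.casesOn t (w.map ι) fun t => run (js.drop t) [a]
  let τ : ℕ → Fin k → List (Fin k) := fun t a =>
    Nat.casesOn t ω fun t => run ((js.drop t).take 1) [a]
  have wl : (w.map ι).length = N := by simp [w]
  have key := stages (V := w.map ι) (U := U) (R := R) (τ := τ) (a0 := a0) (C := C)
    (ℓ := ℓ) (Λ := Λ) (T := js.length + 1)
  refine (key (fun t => ?_) (fun t a => ?_) (fun t a => ?_) rfl rfl
    (fun a => ?_) (by omega) (by omega) hΛ (fun i i' f h2 h3 h4 => ?_)).elim fun I ⟨hI, hE⟩ => ?_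
  rotate_right
  · rw [wl] at hI
    refine ⟨_, I, hI, fun t => ?_⟩
    obtain ⟨e1, e2⟩ := hE t
    have memV : ∀ a ∈ U t, ∀ b ∈ R t a, κ b ∈ S ∧ ι (κ b) = b := by
      intro a ha b hb
      have : b ∈ w.map ι := by rw [← e1]; exact List.mem_flatMap.2 ⟨a, ha, hb⟩
      obtain ⟨s, hs, rfl⟩ := List.mem_map.1 this
      rw [hκ s (wS s hs)]
      exact ⟨wS s hs, rfl⟩
    obtain ⟨u, u1, u2, u3⟩ : ∃ u ∈ insert [a0] (univ.image fun f => run (rep f) ω),
        typ u = typ (U t) ∧ ∃ js', run js' ω = u.flatMap (R t) := by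
      cases t with
      | zero => exact ⟨[a0], mem_insert_self _ _, rfl, js, by simpa [R] using hjs⟩
      | succ t =>
        refine ⟨run (rep (typ (U (t + 1)))) ω, mem_insert_of_mem (mem_image.2 ⟨_, mem_univ _, rfl⟩),
          hrep _ ⟨js.take t, rfl⟩, rep (typ (U (t + 1))) ++ js.drop t, ?_⟩
        simp only [run, R]
        rw [List.foldl_append, foldl_flat]
    have v1 : ∀ a, a ∈ u ↔ a ∈ U t := fun a => by
      have := congrArg Prod.fst (congrFun u2 a); exact this.to_iff
    have v2 : ∀ a, u.count a = 1 ↔ (U t).count a = 1 := fun a => by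
      have := congrArg Prod.snd (congrFun u2 a); exact this.to_iff
    have mem2 : ∀ b ∈ u.flatMap (R t), κ b ∈ S ∧ ι (κ b) = b := by
      intro b hb
      obtain ⟨a, ha, hb⟩ := List.mem_flatMap.1 hb
      exact memV a ((v1 a).1 ha) b hb
    have p1 : ((u.flatMap (R t)).map κ).prod = 1 := by
      refine (hw _ ?_).2 ?_
      · intro s hs
        obtain ⟨b, hb, rfl⟩ := List.mem_map.1 hs
        exact (mem2 b hb).1
      · obtain ⟨js', e⟩ := u3
        refine ⟨js', e.trans ?_⟩
        rw [List.map_map]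
        conv_lhs => rw [← List.map_id (u.flatMap (R t))]
        exact List.map_congr_left fun b hb => (mem2 b hb).2.symm
    have hc : ∀ a, ∃ c ∈ ball S ℓ, a ∈ u →
        c * ((pre W (I t a).1)⁻¹ * pre W (I t a).2) = ((R t a).map κ).prod := by
      intro a
      by_cases ha : a ∈ u
      · rcases e2 a with ⟨b1, b2⟩ | ⟨_, b2, b3⟩
        · refine ⟨((R t a).map κ).prod, ball_mono S ?_ (list_prod_mem_ball _ ?_), fun _ => ?_⟩
          · rw [List.length_map]; exact (b2 ((v1 a).1 ha)).le
          · intro s hs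
            obtain ⟨b, hb, rfl⟩ := List.mem_map.1 hs
            exact (memV a ((v1 a).1 ha) b hb).1
          · rw [b1]; simp
        · refine ⟨1, one_mem_ball S ℓ, fun _ => ?_⟩
          have b4 := b2.map κ
          rw [List.map_drop, wκ] at b4
          have := hI.le t a
          rw [one_mul, pre_factor b4 (by omega), List.length_map, b3]
      · exact ⟨1, one_mem_ball S ℓ, fun h => absurd h ha⟩
    choose c c1 c2 using hc
    refine ⟨u, u1, c, c1, fun a ha => ?_, ?_⟩
    · rcases e2 a with ⟨b1, _⟩ | ⟨b1, _⟩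
      · rw [b1] at ha; exact absurd rfl ha
      · exact (v2 a).2 b1
    · rw [List.map_congr_left c2, ← prod_flat, p1]
  · cases t with
    | zero => simp [U, τ, run]
    | succ t =>
      simp only [U, τ, run]
      rw [List.take_add, List.foldl_append, foldl_flat]
  · cases t with
    | zero =>
      simp only [R, τ, run]
      rw [← hjs, foldl_flat]; simp
    | succ t =>
      simp only [R, τ, run]
      conv_lhs => rw [← List.take_append_drop 1 (js.drop t)]
      rw [List.foldl_append, foldl_flat, List.drop_drop]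
  · cases t with
    | zero => show ω.length ≤ C; simp only [C]; omega
    | succ t =>
      simp only [τ, run]
      rcases js.drop t with _ | ⟨j, l⟩
      · simp only [List.take_nil, List.foldl_nil, List.length_singleton, C]; omega
      · have a1 : (σ j a).length ≤ ∑ a, (σ j a).length :=
          single_le_sum (f := fun a => (σ j a).length) (fun _ _ => Nat.zero_le _) (mem_univ a)
        have a2 : ∑ a, (σ j a).length ≤ ∑ j, ∑ a, (σ j a).length :=
          single_le_sum (f := fun j => ∑ a, (σ j a).length) (fun _ _ => Nat.zero_le _) (mem_univ j)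
        simp [C]; omega
  · simp [R, run]; omega
  · have b1 := h3.length_le
    have b2 := h4.length_le
    rw [List.length_drop, wl] at b1 b2
    refine nr i i' (by omega) (by omega) fun u hu => hι (hW _) (hW _) ?_
    have c1 := h3.getElem (i := u) (by omega)
    have c2 := h4.getElem (i := u) (by omega)
    simp [w] at c1 c2
    rw [← c1, ← c2]

end Pool.Agent.H382Z.EDT
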